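import Mathlib
import Pool.Agent.H80.W.PatZ
import Pool.Agent.H13.W.Graph

set_option autoImplicit false
open Finset

/-! # Patterns of zones and the strand graph

Two configurations which agree off a zone `Z` of natural labels and have the same link pattern on `Z`
have the same reachability relation between the corners which are not inside `Z`. -/

namespace Pool.Agent.H92.W

open Pool.Agent.H75.Perc Pool.Agent.H75.TwoArm Pool.Agent.H13.W
open Pool.Agent.H69.Q1 (exists_orb_nx)

variable {Λ D : Set (ℤ × ℤ)} {w w' w'' Z : Finset (ℤ × ℤ)} {c d x y v v' : ℤ × ℤ}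

/-- the zone has the same link pattern in both configurations -/
def Same (Z w w' : Finset (ℤ × ℤ)) : Prop :=
  ∀ c, H80.W.Entry Z c → ∀ d, H80.W.Pat Z w c d ↔ H80.W.Pat Z w' c d

lemma Same.refl (Z w : Finset (ℤ × ℤ)) : Same Z w w := fun _ _ _ => Iff.rfl

lemma Same.symm (h : Same Z w w') : Same Z w' w := fun c hc d => (h c hc d).symm

lemma Same.trans (h : Same Z w w') (h' : Same Z w' w'') : Same Z w w'' :=
  fun c hc d => (h c hc d).trans (h' c hc d)

/-- a corner which is not in the interior of the zone -/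
def Outer (Z : Finset (ℤ × ℤ)) (x : ℤ × ℤ) : Prop := lab x ∉ Z ∨ plab x ∉ Z

lemma plab_nxO (x : ℤ × ℤ) : plab (nxO x) = lab x := by
  have h := SymmAux.plab_nx' {lab x} x
  unfold nx at h
  rwa [if_pos (mem_singleton_self _)] at h

lemma plab_nxC (x : ℤ × ℤ) : plab (nxC x) = lab x := by
  have h := SymmAux.plab_nx' ∅ x
  unfold nx at h
  rwa [if_neg (notMem_empty _)] at h

lemma entry_of_plab (h : plab c ∉ Z) : H80.W.Entry Z c := by
  intro x hx
  constructor
  · intro h1
    apply h
    rw [← h1, plab_nxO]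
    exact hx
  · intro h1
    apply h
    rw [← h1, plab_nxC]
    exact hx

/-- the strand which enters the zone leaves it -/
lemma fwd (w : Finset (ℤ × ℤ)) (h1 : lab v ∈ Z) (h2 : plab v ∉ Z) :
    ∃ n, 0 < n ∧ (∀ k < n, lab ((nx w)^[k] v) ∈ Z) ∧ lab ((nx w)^[n] v) ∉ Z := by
  classical
  obtain ⟨L, hL⟩ := exists_orb_nx w v
  have hex : ∃ n, lab ((nx w)^[n] v) ∉ Z := by
    refine ⟨L - 1, ?_⟩
    have h3 := SymmAux.plab_nx' w ((nx w)^[L - 1] v)
    rw [← Function.iterate_succ_apply' (nx w)] at h3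
    have h4 : (L - 1).succ = L := by have := hL.pos; omega
    rw [h4, hL.per] at h3
    rwa [← h3]
  refine ⟨Nat.find hex, ?_, fun k hk => ?_, Nat.find_spec hex⟩
  · rw [Nat.find_pos]
    simpa using h1
  · have := Nat.find_min hex hk
    rwa [not_not] at this

/-- the strand which leaves the zone has entered it -/
lemma bwd (w : Finset (ℤ × ℤ)) (h1 : lab v ∉ Z) (h2 : plab v ∈ Z) :
    ∃ c n, 0 < n ∧ plab c ∉ Z ∧ (nx w)^[n] c = v ∧ ∀ k < n, lab ((nx w)^[k] c) ∈ Z := by
  classical
  obtain ⟨L, hL⟩ := exists_orb_nx w v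
  have hpos := hL.pos
  have hex : ∃ n, plab ((nx w)^[L - n] v) ∉ Z := by
    refine ⟨L - 1, ?_⟩
    have h3 := SymmAux.plab_nx' w v
    have h4 : L - (L - 1) = 1 := by omega
    rw [h4]
    change plab (nx w v) ∉ Z
    rwa [h3]
  set n := Nat.find hex with hn
  have hn0 : 0 < n := by
    rw [hn, Nat.find_pos, Nat.sub_zero, hL.per, not_not]
    exact h2
  have hnL : n ≤ L - 1 := by
    rw [hn]
    apply Nat.find_min'
    have h3 := SymmAux.plab_nx' w v
    have h4 : L - (L - 1) = 1 := by omega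
    rw [h4]
    change plab (nx w v) ∉ Z
    rwa [h3]
  refine ⟨(nx w)^[L - n] v, n, hn0, Nat.find_spec hex, ?_, fun k hk => ?_⟩
  · rw [← Function.iterate_add_apply]
    have : n + (L - n) = L := by omega
    rw [this, hL.per]
  · have h3 := SymmAux.plab_nx' w ((nx w)^[k] ((nx w)^[L - n] v))
    rw [← h3, ← Function.iterate_add_apply, ← Function.iterate_succ_apply' (nx w)]
    have h4 : (k + (L - n)).succ = L - (n - k - 1) := by omega
    rw [h4]
    have := Nat.find_min hex (m := n - k - 1) (by omega)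
    rwa [not_not] at this

/-- a piece of a strand inside the zone is a path of the strand graph -/
lemma reach_iter (hZ : ∀ e ∈ Z, e ∈ Λ ∧ e ∉ D) {n : ℕ} (h : ∀ k < n, lab ((nx w)^[k] c) ∈ Z) :
    (SG Λ D w).Reachable c ((nx w)^[n] c) := by
  induction n with
  | zero => exact SimpleGraph.Reachable.refl _
  | succ n ih =>
    refine (ih fun k hk => h k (by omega)).trans ?_
    have h1 := h n (Nat.lt_succ_self n)
    have h2 := hZ _ h1
    refine SimpleGraph.Adj.reachable ⟨_, h2.1, Or.inr ⟨h2.2, Or.inl ⟨rfl, ?_⟩⟩⟩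
    rw [Function.iterate_succ_apply']

lemma reach_pat (hZ : ∀ e ∈ Z, e ∈ Λ ∧ e ∉ D) (h : H80.W.Pat Z w c d) :
    (SG Λ D w).Reachable c d := by
  obtain ⟨n, h1, -, h3⟩ := h
  rw [← h1]
  exact reach_iter hZ h3

theorem reach_of_same_aux (hZ : ∀ e ∈ Z, e ∈ Λ ∧ e ∉ D)
    (hoff : ∀ e ∈ Λ, e ∉ Z → (e ∈ w ↔ e ∈ w')) (hs : Same Z w w') (hx : Outer Z x)
    (h : (SG Λ D w).Reachable x v) :
    (Outer Z v ∧ (SG Λ D w').Reachable x v) ∨
    ∃ c n k, plab c ∉ Z ∧ 0 < k ∧ k < n ∧ (∀ i < n, lab ((nx w)^[i] c) ∈ Z) ∧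
      lab ((nx w)^[n] c) ∉ Z ∧ v = (nx w)^[k] c ∧ (SG Λ D w').Reachable x c := by
  -- a full strand of the zone
  have hstr : ∀ {c : ℤ × ℤ} {n : ℕ}, plab c ∉ Z → (∀ i < n, lab ((nx w)^[i] c) ∈ Z) →
      lab ((nx w)^[n] c) ∉ Z → (SG Λ D w').Reachable c ((nx w)^[n] c) := by
    intro c n h1 h2 h3
    exact reach_pat hZ ((hs c (entry_of_plab h1) _).1 ⟨n, rfl, h3, h2⟩)
  -- one step
  have hstep : ∀ {v v' : ℤ × ℤ}, (SG Λ D w).Adj v v' →
      ((Outer Z v ∧ (SG Λ D w').Reachable x v) ∨
      ∃ c n k, plab c ∉ Z ∧ 0 < k ∧ k < n ∧ (∀ i < n, lab ((nx w)^[i] c) ∈ Z) ∧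
      lab ((nx w)^[n] c) ∉ Z ∧ v = (nx w)^[k] c ∧ (SG Λ D w').Reachable x c) →
      ((Outer Z v' ∧ (SG Λ D w').Reachable x v') ∨
      ∃ c n k, plab c ∉ Z ∧ 0 < k ∧ k < n ∧ (∀ i < n, lab ((nx w)^[i] c) ∈ Z) ∧
      lab ((nx w)^[n] c) ∉ Z ∧ v' = (nx w)^[k] c ∧ (SG Λ D w').Reachable x c) := by
    rintro v v' ⟨e, he, hT⟩ hv
    rcases hv with ⟨ho, hr⟩ | ⟨c, n, k, h1, h2, h3, h4, h5, rfl, h6⟩
    · by_cases heZ : e ∈ Z
      · have hD := (hZ e heZ).2
        rcases hT with ⟨h, -⟩ | ⟨-, ⟨h, h'⟩ | ⟨h, h'⟩⟩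
        · exact absurd h hD
        · -- the strand enters the zone at `v`
          subst h
          have hp : plab v ∉ Z := by
            rcases ho with h | h
            · exact absurd heZ h
            · exact h
          obtain ⟨n, hn0, hn1, hn2⟩ := fwd w heZ hp
          rcases Nat.lt_or_ge 1 n with hn | hn
          · exact Or.inr ⟨v, n, 1, hp, one_pos, hn, hn1, hn2, h'.symm, hr⟩
          · have : n = 1 := by omega
            subst this
            left
            have h7 : (nx w)^[1] v = v' := h'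
            rw [← h7]
            exact ⟨Or.inl hn2, hr.trans (hstr hp hn1 hn2)⟩
        · -- the strand leaves the zone at `v`
          subst h
          have hpv : plab v = lab v' := by rw [← h']; exact SymmAux.plab_nx' w v'
          have hp : lab v ∉ Z := by
            rcases ho with h | h
            · exact h
            · rw [hpv] at h; exact absurd heZ h
          obtain ⟨c, n, hn0, hc, hn1, hn2⟩ := bwd w hp (by rw [hpv]; exact heZ)
          have hv' : (nx w)^[n - 1] c = v' := by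
            apply nx_inj (w := w)
            rw [h', ← Function.iterate_succ_apply' (nx w), Nat.succ_eq_add_one,
              Nat.sub_add_cancel hn0, hn1]
          have hrc : (SG Λ D w').Reachable x c := by
            have h7 := hstr hc hn2 (by rw [hn1]; exact hp)
            rw [hn1] at h7
            exact hr.trans h7.symm
          rcases Nat.lt_or_ge 1 n with hn | hn
          · exact Or.inr ⟨c, n, n - 1, hc, by omega, by omega, hn2, by rw [hn1]; exact hp,
              hv'.symm, hrc⟩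
          · have : n = 1 := by omega
            subst this
            left
            have h7 : c = v' := hv'
            rw [← h7]
            exact ⟨Or.inr hc, hrc⟩
      · left
        have hT' : TJ D w' e v v' := (TJ_congr Iff.rfl fun _ => hoff e he heZ).1 hT
        refine ⟨?_, hr.trans (SimpleGraph.Adj.reachable ⟨e, he, hT'⟩)⟩
        rcases hT.label' with h | h
        · exact Or.inl (h ▸ heZ)
        · exact Or.inr (h ▸ heZ)
    · -- inside the zone
      have hl : lab ((nx w)^[k] c) ∈ Z := h4 k h3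
      have hpl : plab ((nx w)^[k] c) ∈ Z := by
        have h7 := SymmAux.plab_nx' w ((nx w)^[k - 1] c)
        rw [← Function.iterate_succ_apply' (nx w), Nat.succ_eq_add_one, Nat.sub_add_cancel h2] at h7
        rw [h7]
        exact h4 _ (by omega)
      have heZ : e ∈ Z := by
        rcases hT.label with h | h
        · rw [h]; exact hl
        · rw [h]; exact hpl
      have hD := (hZ e heZ).2
      rcases hT with ⟨h, -⟩ | ⟨-, ⟨h, h'⟩ | ⟨h, h'⟩⟩
      · exact absurd h hD
      · -- forward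
        rw [← Function.iterate_succ_apply' (nx w)] at h'
        rcases Nat.lt_or_ge (k + 1) n with hn | hn
        · exact Or.inr ⟨c, n, k + 1, h1, by omega, hn, h4, h5, h'.symm, h6⟩
        · have : k + 1 = n := by omega
          subst this
          left
          rw [← h']
          exact ⟨Or.inl h5, h6.trans (hstr h1 h4 h5)⟩
      · -- backward
        have hv' : (nx w)^[k - 1] c = v' := by
          apply nx_inj (w := w)
          rw [h', ← Function.iterate_succ_apply' (nx w), Nat.succ_eq_add_one,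
            Nat.sub_add_cancel h2]
        rcases Nat.lt_or_ge 1 k with hk | hk
        · exact Or.inr ⟨c, n, k - 1, h1, by omega, by omega, h4, h5, hv'.symm, h6⟩
        · have : k = 1 := by omega
          subst this
          left
          have h7 : c = v' := hv'
          rw [← h7]
          exact ⟨Or.inr h1, h6⟩
  obtain ⟨p⟩ := h
  have key : ∀ (a b : ℤ × ℤ) (p : (SG Λ D w).Walk a b),
      ((Outer Z a ∧ (SG Λ D w').Reachable x a) ∨
      ∃ c n k, plab c ∉ Z ∧ 0 < k ∧ k < n ∧ (∀ i < n, lab ((nx w)^[i] c) ∈ Z) ∧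
      lab ((nx w)^[n] c) ∉ Z ∧ a = (nx w)^[k] c ∧ (SG Λ D w').Reachable x c) →
      ((Outer Z b ∧ (SG Λ D w').Reachable x b) ∨
      ∃ c n k, plab c ∉ Z ∧ 0 < k ∧ k < n ∧ (∀ i < n, lab ((nx w)^[i] c) ∈ Z) ∧
      lab ((nx w)^[n] c) ∉ Z ∧ b = (nx w)^[k] c ∧ (SG Λ D w').Reachable x c) := by
    intro a b p
    induction p with
    | nil => exact id
    | cons h _ ih => exact fun ha => ih (hstep h ha)
  exact key x v p (Or.inl ⟨hx, SimpleGraph.Reachable.refl _⟩)

lemma reach_of_same (hZ : ∀ e ∈ Z, e ∈ Λ ∧ e ∉ D)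
    (hoff : ∀ e ∈ Λ, e ∉ Z → (e ∈ w ↔ e ∈ w')) (hs : Same Z w w') (hx : Outer Z x)
    (hy : Outer Z y) (h : (SG Λ D w).Reachable x y) : (SG Λ D w').Reachable x y := by
  rcases reach_of_same_aux hZ hoff hs hx h with h1 | ⟨c, n, k, h1, h2, h3, h4, h5, h6, h7⟩
  · exact h1.2
  · exfalso
    subst h6
    rcases hy with h | h
    · exact h (h4 k h3)
    · apply h
      have h7 := SymmAux.plab_nx' w ((nx w)^[k - 1] c)
      rw [← Function.iterate_succ_apply' (nx w), Nat.succ_eq_add_one, Nat.sub_add_cancel h2] at h7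
      rw [h7]
      exact h4 _ (by omega)

/-- **Same pattern of a zone of natural labels: same reachability between outer corners.** -/
theorem reach_iff_of_same (hZ : ∀ e ∈ Z, e ∈ Λ ∧ e ∉ D)
    (hoff : ∀ e ∈ Λ, e ∉ Z → (e ∈ w ↔ e ∈ w')) (hs : Same Z w w') (hx : Outer Z x)
    (hy : Outer Z y) : (SG Λ D w).Reachable x y ↔ (SG Λ D w').Reachable x y :=
  ⟨reach_of_same hZ hoff hs hx hy,
    reach_of_same hZ (fun e h1 h2 => (hoff e h1 h2).symm) hs.symm hx hy⟩

/-- `Φ` depends on the labels of the zone only through its link pattern -/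
def PatInv {β : Type*} (Z : Finset (ℤ × ℤ)) (Φ : Finset (ℤ × ℤ) → β) : Prop :=
  ∀ w w' : Finset (ℤ × ℤ), (∀ e, e ∉ Z → (e ∈ w ↔ e ∈ w')) → Same Z w w' → Φ w = Φ w'

/-- the relation between outer corners is such a functional -/
theorem patInv_SG {ι : Type*} (X : ι → ℤ × ℤ) (hZ : ∀ e ∈ Z, e ∈ Λ ∧ e ∉ D)
    (hX : ∀ i, Outer Z (X i)) :
    PatInv Z (fun w => fun i j : ι => (SG Λ D w).Reachable (X i) (X j)) := by
  intro w w' h1 h2
  funext i j
  exact propext (reach_iff_of_same hZ (fun e _ h => h1 e h) h2 (hX i) (hX j))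

lemma PatInv.comp {β γ : Type*} {Φ : Finset (ℤ × ℤ) → β} (h : PatInv Z Φ) (f : β → γ) :
    PatInv Z (fun w => f (Φ w)) := fun w w' h1 h2 => congrArg f (h w w' h1 h2)

end Pool.Agent.H92.W
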