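import Mathlib
import Pool.Agent.H92.W.PatSG
import Pool.Agent.H33.Q1.Tile

set_option autoImplicit false
open Finset

/-! # Zones

Ends and faces of a label, labels with a common side, connected sets of labels. A column convex finite set
of labels has a connected complement (`ZF`, `ZV` of `H80/W/PatZ.lean`). -/

namespace Pool.Agent.H92.W

open Pool.Agent.H75.Perc Pool.Agent.H75.TwoArm Pool.Agent.Q1 Pool.Agent.H33.Q1 H80.W

variable {w w' Z K N : Finset (ℤ × ℤ)} {e e' x y a b : ℤ × ℤ}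

/-- `x` is a vertex of the label `e` -/
def EndV (e x : ℤ × ℤ) : Prop := ∃ y, IsUnit4 (y - x) ∧ x + y = e

/-- `x` is a face of the label `e` -/
def EndF (e x : ℤ × ℤ) : Prop := ∃ y, IsUnit4 (y - x) ∧ x + y - (1, 1) = e

lemma outV_iff : OutV Z x ↔ ∃ e, EndV e x ∧ e ∉ Z := by
  constructor
  · rintro ⟨y, h1, h2⟩
    exact ⟨_, ⟨y, h1, rfl⟩, h2⟩
  · rintro ⟨e, ⟨y, h1, h2⟩, h3⟩
    exact ⟨y, h1, by rw [h2]; exact h3⟩

lemma outF_iff : OutF Z x ↔ ∃ e, EndF e x ∧ e ∉ Z := by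
  constructor
  · rintro ⟨y, h1, h2⟩
    exact ⟨_, ⟨y, h1, rfl⟩, h2⟩
  · rintro ⟨e, ⟨y, h1, h2⟩, h3⟩
    exact ⟨y, h1, by rw [h2]; exact h3⟩

lemma EndV.odd (h : EndV e x) : (e.1 + e.2) % 2 = 1 := by
  obtain ⟨y, h1, rfl⟩ := h
  have := unit_cases h1
  simp only [Prod.fst_add, Prod.snd_add]
  omega

lemma EndF.odd (h : EndF e x) : (e.1 + e.2) % 2 = 1 := by
  obtain ⟨y, h1, rfl⟩ := h
  have := unit_cases h1
  simp only [Prod.fst_add, Prod.snd_add, Prod.fst_sub, Prod.snd_sub]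
  omega

lemma two_ends (h : EndV e x) (h' : EndV e y) : x = y ∨ (IsUnit4 (y - x) ∧ x + y = e) := by
  obtain ⟨a, h1, h2⟩ := h
  obtain ⟨b, h3, h4⟩ := h'
  by_cases hxy : x = y
  · exact Or.inl hxy
  · right
    have hy : y = a := by
      have h5 := unit_cases h1
      have h6 := unit_cases h3
      have h7 := congrArg Prod.fst h2
      have h8 := congrArg Prod.snd h2
      have h9 := congrArg Prod.fst h4
      have h10 := congrArg Prod.snd h4
      simp only [Prod.fst_add, Prod.snd_add] at h7 h8 h9 h10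
      have h11 : ¬ (x.1 = y.1 ∧ x.2 = y.2) := fun h => hxy (Prod.ext h.1 h.2)
      refine Prod.ext ?_ ?_ <;> omega
    subst hy
    exact ⟨h1, h2⟩

lemma two_faces (h : EndF e x) (h' : EndF e y) :
    x = y ∨ (IsUnit4 (y - x) ∧ x + y - (1, 1) = e) := by
  obtain ⟨a, h1, h2⟩ := h
  obtain ⟨b, h3, h4⟩ := h'
  by_cases hxy : x = y
  · exact Or.inl hxy
  · right
    have hy : y = a := by
      have h5 := unit_cases h1
      have h6 := unit_cases h3
      have h7 := congrArg Prod.fst h2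
      have h8 := congrArg Prod.snd h2
      have h9 := congrArg Prod.fst h4
      have h10 := congrArg Prod.snd h4
      simp only [Prod.fst_add, Prod.snd_add, Prod.fst_sub, Prod.snd_sub] at h7 h8 h9 h10
      have h11 : ¬ (x.1 = y.1 ∧ x.2 = y.2) := fun h => hxy (Prod.ext h.1 h.2)
      refine Prod.ext ?_ ?_ <;> omega
    subst hy
    exact ⟨h1, h2⟩

lemma co_ends (he : e ∈ w) (h : EndV e x) (h' : EndV e y) : Co w x y := by
  rcases two_ends h h' with rfl | ⟨h1, h2⟩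
  · exact Co.refl _ _
  · exact Relation.ReflTransGen.single ⟨h1, by rw [h2]; exact he⟩

lemma mem_du_iff {E : Finset (ℤ × ℤ)} : x + y ∈ du E w ↔ x + y - (1, 1) ∈ E ∧ x + y - (1, 1) ∉ w := by
  unfold du
  rw [mem_map]
  constructor
  · rintro ⟨l, hl, h⟩
    have h1 : x + y - (1, 1) = l := by
      rw [← h]
      refine Prod.ext ?_ ?_ <;> simp [sh1]
    rw [h1]
    exact mem_sdiff.1 hl
  · intro h
    refine ⟨x + y - (1, 1), mem_sdiff.2 h, ?_⟩
    refine Prod.ext ?_ ?_ <;> simp [sh1]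

lemma co_faces {E : Finset (ℤ × ℤ)} (he : e ∈ E) (hw : e ∉ w) (h : EndF e x) (h' : EndF e y) :
    Co (du E w) x y := by
  rcases two_faces h h' with rfl | ⟨h1, h2⟩
  · exact Co.refl _ _
  · exact Relation.ReflTransGen.single ⟨h1, mem_du_iff.2 (by rw [h2]; exact ⟨he, hw⟩)⟩

lemma dco_faces (hw : e ∉ w) (h : EndF e x) (h' : EndF e y) : DCo w x y :=
  ⟨{e}, co_faces (mem_singleton_self _) hw h h'⟩

/-! ### Labels with a common side -/

/-- the tiles have a common side -/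
def SA (e e' : ℤ × ℤ) : Prop :=
  (e'.1 = e.1 + 1 ∨ e'.1 = e.1 - 1) ∧ (e'.2 = e.2 + 1 ∨ e'.2 = e.2 - 1)

lemma SA.symm (h : SA e e') : SA e' e := by unfold SA at *; omega

lemma isUnit4_of {p : ℤ × ℤ} (h : (p.1 = 1 ∧ p.2 = 0) ∨ (p.1 = 0 ∧ p.2 = 1) ∨ (p.1 = -1 ∧ p.2 = 0) ∨
    (p.1 = 0 ∧ p.2 = -1)) : IsUnit4 p := by
  unfold IsUnit4
  simp only [Prod.ext_iff]
  exact h

/-- they have a common vertex -/
lemma SA.endV (h : SA e e') (ho : (e.1 + e.2) % 2 = 1) : ∃ x, EndV e x ∧ EndV e' x := by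
  unfold SA at h
  rcases Int.emod_two_eq_zero_or_one e.1 with h1 | h1
  · refine ⟨(e.1 / 2, e'.2 / 2), ⟨(e.1 / 2, e.2 - e'.2 / 2), isUnit4_of ?_, Prod.ext ?_ ?_⟩,
      ⟨(e'.1 - e.1 / 2, e'.2 / 2), isUnit4_of ?_, Prod.ext ?_ ?_⟩⟩ <;>
    simp only [Prod.fst_sub, Prod.snd_sub, Prod.fst_add, Prod.snd_add] <;> omega
  · refine ⟨(e'.1 / 2, e.2 / 2), ⟨(e.1 - e'.1 / 2, e.2 / 2), isUnit4_of ?_, Prod.ext ?_ ?_⟩,
      ⟨(e'.1 / 2, e'.2 - e.2 / 2), isUnit4_of ?_, Prod.ext ?_ ?_⟩⟩ <;>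
    simp only [Prod.fst_sub, Prod.snd_sub, Prod.fst_add, Prod.snd_add] <;> omega

/-- and a common face -/
lemma SA.endF (h : SA e e') (ho : (e.1 + e.2) % 2 = 1) : ∃ x, EndF e x ∧ EndF e' x := by
  unfold SA at h
  rcases Int.emod_two_eq_zero_or_one e.1 with h1 | h1
  · refine ⟨((e'.1 + 1) / 2, (e.2 + 1) / 2),
      ⟨(e.1 + 1 - (e'.1 + 1) / 2, (e.2 + 1) / 2), isUnit4_of ?_, Prod.ext ?_ ?_⟩,
      ⟨((e'.1 + 1) / 2, e'.2 + 1 - (e.2 + 1) / 2), isUnit4_of ?_, Prod.ext ?_ ?_⟩⟩ <;>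
    simp only [Prod.fst_sub, Prod.snd_sub, Prod.fst_add, Prod.snd_add] <;> omega
  · refine ⟨((e.1 + 1) / 2, (e'.2 + 1) / 2),
      ⟨((e.1 + 1) / 2, e.2 + 1 - (e'.2 + 1) / 2), isUnit4_of ?_, Prod.ext ?_ ?_⟩,
      ⟨(e'.1 + 1 - (e.1 + 1) / 2, (e'.2 + 1) / 2), isUnit4_of ?_, Prod.ext ?_ ?_⟩⟩ <;>
    simp only [Prod.fst_sub, Prod.snd_sub, Prod.fst_add, Prod.snd_add] <;> omega

lemma SA.odd (h : SA e e') (ho : (e.1 + e.2) % 2 = 1) : (e'.1 + e'.2) % 2 = 1 := by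
  unfold SA at h; omega

/-- chains of labels of a set, consecutive ones have a common side -/
def Ch (K : Set (ℤ × ℤ)) (e e' : ℤ × ℤ) : Prop :=
  Relation.ReflTransGen (fun a b => SA a b ∧ a ∈ K ∧ b ∈ K) e e'

lemma Ch.refl (K : Set (ℤ × ℤ)) (e : ℤ × ℤ) : Ch K e e := Relation.ReflTransGen.refl

lemma Ch.trans {K : Set (ℤ × ℤ)} {a b c : ℤ × ℤ} (h : Ch K a b) (h' : Ch K b c) : Ch K a c :=
  Relation.ReflTransGen.trans h h'

lemma Ch.symm {K : Set (ℤ × ℤ)} (h : Ch K a b) : Ch K b a := by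
  induction h with
  | refl => exact Ch.refl _ _
  | tail _ hbc ih => exact Relation.ReflTransGen.head ⟨hbc.1.symm, hbc.2.2, hbc.2.1⟩ ih

lemma Ch.mono {K K' : Set (ℤ × ℤ)} (hK : K ⊆ K') (h : Ch K a b) : Ch K' a b := by
  induction h with
  | refl => exact Ch.refl _ _
  | tail _ hbc ih => exact ih.tail ⟨hbc.1, hK hbc.2.1, hK hbc.2.2⟩

lemma Ch.single {K : Set (ℤ × ℤ)} (h : SA a b) (ha : a ∈ K) (hb : b ∈ K) : Ch K a b :=
  Relation.ReflTransGen.single ⟨h, ha, hb⟩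

lemma Ch.odd {K : Set (ℤ × ℤ)} (h : Ch K a b) (ho : (a.1 + a.2) % 2 = 1) :
    (b.1 + b.2) % 2 = 1 := by
  induction h with
  | refl => exact ho
  | tail _ hbc ih => exact hbc.1.odd ih

/-- open labels along a chain join all the vertices -/
lemma Ch.co {K : Set (ℤ × ℤ)} (h : Ch K e e') (he : e ∈ w) (hK : ∀ l ∈ K, l ∈ w) (hx : EndV e x)
    (hy : EndV e' y) : Co w x y := by
  induction h generalizing y with
  | refl => exact co_ends he hx hy
  | @tail b c hab hbc ih =>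
    have ho : (b.1 + b.2) % 2 = 1 := Ch.odd hab hx.odd
    obtain ⟨z, hz1, hz2⟩ := hbc.1.endV ho
    exact (ih hz1).trans (co_ends (hK _ hbc.2.2) hz2 hy)

/-- closed labels along a chain join all the faces -/
lemma Ch.cof {K : Set (ℤ × ℤ)} {E : Finset (ℤ × ℤ)} (h : Ch K e e') (he : e ∈ E ∧ e ∉ w)
    (hK : ∀ l ∈ K, l ∈ E ∧ l ∉ w) (hx : EndF e x) (hy : EndF e' y) : Co (du E w) x y := by
  induction h generalizing y with
  | refl => exact co_faces he.1 he.2 hx hy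
  | @tail b c hab hbc ih =>
    have ho : (b.1 + b.2) % 2 = 1 := Ch.odd hab hx.odd
    obtain ⟨z, hz1, hz2⟩ := hbc.1.endF ho
    have h1 := hK _ hbc.2.2
    exact (ih hz1).trans (co_faces h1.1 h1.2 hz2 hy)

lemma Ch.dco {K : Set (ℤ × ℤ)} (h : Ch K e e') (he : e ∉ w) (hK : ∀ l ∈ K, l ∉ w) (hx : EndF e x)
    (hy : EndF e' y) : DCo w x y := by
  induction h generalizing y with
  | refl => exact dco_faces he hx hy
  | @tail b c hab hbc ih =>
    have ho : (b.1 + b.2) % 2 = 1 := Ch.odd hab hx.odd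
    obtain ⟨z, hz1, hz2⟩ := hbc.1.endF ho
    exact (ih hz1).trans (dco_faces (hK _ hbc.2.2) hz2 hy)

/-- an open path off `Z` along a chain off `Z` -/
lemma Ch.off (h : Ch {l | l ∉ Z} e e') (he : e ∉ Z) (hx : EndV e x) (hy : EndV e' y) :
    ∃ N, Co N x y ∧ Disjoint N Z := by
  induction h generalizing y with
  | refl =>
    exact ⟨{e}, co_ends (mem_singleton_self _) hx hy, disjoint_singleton_left.2 he⟩
  | @tail b c hab hbc ih =>
    have ho : (b.1 + b.2) % 2 = 1 := Ch.odd hab hx.odd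
    obtain ⟨z, hz1, hz2⟩ := hbc.1.endV ho
    obtain ⟨N, hN1, hN2⟩ := ih hz1
    refine ⟨insert c N, (hN1.mono (subset_insert _ _)).trans
      (co_ends (mem_insert_self _ _) hz2 hy), ?_⟩
    rw [disjoint_insert_left]
    exact ⟨hbc.2.2, hN2⟩

/-! ### Column convex sets -/

lemma SA_right (x y : ℤ) : SA (lt (x, y)) (lt (x + 1, y)) := by unfold SA lt; simp only; omega

lemma SA_up (x y : ℤ) : SA (lt (x, y)) (lt (x, y + 1)) := by unfold SA lt; simp only; omega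

lemma Ch_right {K : Set (ℤ × ℤ)} {x y : ℤ} (n : ℕ) (h : ∀ k : ℤ, x ≤ k → k ≤ x + n → lt (k, y) ∈ K) :
    Ch K (lt (x, y)) (lt (x + n, y)) := by
  induction n with
  | zero => simpa using Ch.refl K _
  | succ n ih =>
    refine (ih fun k h1 h2 => h k h1 (by push_cast; omega)).trans ?_
    have h1 := SA_right (x + n) y
    have e1 : x + ((n + 1 : ℕ) : ℤ) = x + n + 1 := by push_cast; ring
    rw [e1]
    exact Ch.single h1 (h _ (by omega) (by push_cast; omega)) (h _ (by omega) (by push_cast; omega))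

lemma Ch_up {K : Set (ℤ × ℤ)} {x y : ℤ} (n : ℕ) (h : ∀ k : ℤ, y ≤ k → k ≤ y + n → lt (x, k) ∈ K) :
    Ch K (lt (x, y)) (lt (x, y + n)) := by
  induction n with
  | zero => simpa using Ch.refl K _
  | succ n ih =>
    refine (ih fun k h1 h2 => h k h1 (by push_cast; omega)).trans ?_
    have h1 := SA_up x (y + n)
    have e1 : y + ((n + 1 : ℕ) : ℤ) = y + n + 1 := by push_cast; ring
    rw [e1]
    exact Ch.single h1 (h _ (by omega) (by push_cast; omega)) (h _ (by omega) (by push_cast; omega))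

lemma Ch_row {K : Set (ℤ × ℤ)} {x x' y : ℤ} (hx : x ≤ x')
    (h : ∀ k : ℤ, x ≤ k → k ≤ x' → lt (k, y) ∈ K) : Ch K (lt (x, y)) (lt (x', y)) := by
  have h1 := Ch_right (K := K) (x := x) (y := y) (x' - x).toNat
    (fun k h1 h2 => h k h1 (by rw [Int.toNat_of_nonneg (by omega)] at h2; omega))
  rw [Int.toNat_of_nonneg (by omega)] at h1
  rwa [add_sub_cancel] at h1

lemma Ch_col {K : Set (ℤ × ℤ)} {x y y' : ℤ} (hy : y ≤ y')
    (h : ∀ k : ℤ, y ≤ k → k ≤ y' → lt (x, k) ∈ K) : Ch K (lt (x, y)) (lt (x, y')) := by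
  have h1 := Ch_up (K := K) (x := x) (y := y) (y' - y).toNat
    (fun k h1 h2 => h k h1 (by rw [Int.toNat_of_nonneg (by omega)] at h2; omega))
  rw [Int.toNat_of_nonneg (by omega)] at h1
  rwa [add_sub_cancel] at h1

/-- the columns are intervals -/
def ColConv (Z : Finset (ℤ × ℤ)) : Prop :=
  ∀ x y1 y y2 : ℤ, y1 ≤ y → y ≤ y2 → lt (x, y1) ∈ Z → lt (x, y2) ∈ Z → lt (x, y) ∈ Z

lemma exists_far (Z : Finset (ℤ × ℤ)) : ∃ M : ℤ, ∀ e ∈ Z, |(tt e).1| < M ∧ |(tt e).2| < M := by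
  induction Z using Finset.induction_on with
  | empty => exact ⟨0, fun e he => absurd he (notMem_empty e)⟩
  | insert a s _ ih =>
    obtain ⟨M, hM⟩ := ih
    refine ⟨max M (|(tt a).1| + |(tt a).2| + 1), fun e he => ?_⟩
    rcases mem_insert.1 he with rfl | h
    · have h1 := abs_nonneg (tt e).1
      have h2 := abs_nonneg (tt e).2
      constructor <;> (rw [lt_max_iff]; right; omega)
    · exact ⟨lt_of_lt_of_le (hM e h).1 (le_max_left _ _),
        lt_of_lt_of_le (hM e h).2 (le_max_left _ _)⟩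

/-- the complement of a column convex set is connected -/
theorem off_conn (hZ : ColConv Z) (ho : (e.1 + e.2) % 2 = 1) (ho' : (e'.1 + e'.2) % 2 = 1)
    (he : e ∉ Z) (he' : e' ∉ Z) : Ch {l | l ∉ Z} e e' := by
  obtain ⟨M0, hM0⟩ := exists_far (insert e (insert e' Z))
  have key : ∀ a : ℤ × ℤ, (a.1 + a.2) % 2 = 1 → a ∉ Z → |(tt a).1| < M0 → |(tt a).2| < M0 →
      Ch {l | l ∉ Z} a (lt (M0, M0)) := by
    intro a ha haZ h1 h2
    have hfar : ∀ x y : ℤ, M0 ≤ |x| ∨ M0 ≤ |y| → lt (x, y) ∈ {l : ℤ × ℤ | l ∉ Z} := by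
      intro x y h hxy
      have h3 := hM0 (lt (x, y)) (by simp [hxy])
      rw [tt_lt] at h3
      simp only at h3
      omega
    rw [← lt_tt ha]
    rw [← lt_tt ha] at haZ
    generalize tt a = t at h1 h2 haZ ⊢
    obtain ⟨x, y⟩ := t
    rw [abs_lt] at h1 h2
    simp only at h1 h2
    by_cases hup : ∀ y', y ≤ y' → lt (x, y') ∉ Z
    · refine (Ch_col (y' := M0) (by omega) fun k hk _ => hup k hk).trans ?_
      refine Ch_row (by omega) fun k _ _ => hfar _ _ (Or.inr (le_abs_self _))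
    · push Not at hup
      obtain ⟨y2, hy2, hy2Z⟩ := hup
      have hdn : ∀ y', y' ≤ y → lt (x, y') ∉ Z := fun y' hy' h => haZ (hZ x y' y y2 hy' hy2 h hy2Z)
      refine (Ch_col (y := -M0) (y' := y) (by omega) fun k _ hk => hdn k hk).symm.trans ?_
      refine (Ch_row (x' := M0) (by omega) fun k _ _ => hfar _ _ (Or.inr (by
        rw [abs_neg]; exact le_abs_self _))).trans ?_
      exact Ch_col (by omega) fun k _ _ => hfar _ _ (Or.inl (le_abs_self _))
  have h1 := hM0 e (mem_insert_self _ _)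
  have h2 := hM0 e' (mem_insert_of_mem (mem_insert_self _ _))
  exact (key e ho he h1.1 h1.2).trans (key e' ho' he' h2.1 h2.2).symm

theorem ZF_of_col (hZ : ColConv Z) : ZF Z := by
  intro a b ha hb
  obtain ⟨e, he1, he2⟩ := outF_iff.1 ha
  obtain ⟨e', he1', he2'⟩ := outF_iff.1 hb
  exact (off_conn hZ he1.odd he1'.odd he2 he2').dco he2 (fun l hl => hl) he1 he1'

theorem ZV_of_col (hZ : ColConv Z) : ZV Z := by
  intro a b ha hb
  obtain ⟨e, he1, he2⟩ := outV_iff.1 ha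
  obtain ⟨e', he1', he2'⟩ := outV_iff.1 hb
  exact (off_conn hZ he1.odd he1'.odd he2 he2').off he2 he1 he1'

end Pool.Agent.H92.W
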