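import Mathlib
import Pool.Agent.H92.W.Zone
import Pool.Agent.H58.W.Coin

set_option autoImplicit false
open Finset

/-! # ONE-ROW: the geometry of the moved part of a wall (interface)

Columns `xs ≤ x < xe` of a floor (`s = true`) or of a ceiling (`s = false`). The tile of the column `x` at the
height `h` is `τ s x h`; heights are measured into the room. In the boxes of radius `R` around the tiles
`(x0, bot x0)`, `xs ≤ x0 < xe`, the room is `bot x ≤ h` and the walls are `h < bot x`. Only the wall tiles which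
touch the room (also diagonally, `Tch`) are looked at. `pc x` is the piece of the wall to which the wall tiles
of the column `x` belong; a piece has one colour in each configuration (solid, or half of a plate).
`J` : the abscissas at which `bot` or `pc` changes (steps, marks, ends). At the ends of the room `bot` jumps up,
at the tip of a slit it jumps down. `Hl` : diagonal tiles at convex corners of the room which are not used
(they do not belong to the world, or have the wrong colour). This is allowed if the colour changes there (mark),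
and if the corner point is a vertex and the walls are open, or it is a face and the walls are closed.
Coins: `ω` = open labels of `E` (`b` : blocks), `c ω` = configuration, `F`, `u` : the tile `f ∈ F` is forced
to the state of `u f`. -/

namespace Pool.Agent.H92.W

open Pool.Agent.H33.Q1
open Pool.Agent.H58.W (up mem_up up_subset)

/-- tile of the column `x` at the height `h` above the floor (`s = true`), below the ceiling (`s = false`) -/
def τ (s : Bool) (x h : ℤ) : ℤ × ℤ := lt (x, if s then h else -1 - h)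

/-- the place `(x, h)` touches the room, also diagonally -/
def Tch (bot : ℤ → ℤ) (x h : ℤ) : Prop := ∃ x', |x' - x| ≤ 1 ∧ bot x' ≤ h + 1

/-- the places in the windows -/
def Wdw (xs xe R : ℤ) (bot : ℤ → ℤ) (x h : ℤ) : Prop :=
  ∃ x0, xs ≤ x0 ∧ x0 < xe ∧ |x - x0| ≤ R ∧ |h - bot x0| ≤ R

/-- direction into the room, in label coordinates (35's `n`) -/
def nB (s : Bool) : ℤ × ℤ := if s then (-1, 1) else (1, -1)

/-- the wall tile of a forced tile -/
def uB (s : Bool) (f : ℤ × ℤ) : ℤ × ℤ := f - nB s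

/-- wall place which is used -/
def Wall (bot : ℤ → ℤ) (Hl : ℤ → ℤ → Prop) (x h : ℤ) : Prop := h < bot x ∧ Tch bot x h ∧ ¬ Hl x h

/-- **a floor or a ceiling with its steps, marks and ends** -/
structure Bank {γ : Type*} [DecidableEq γ] (s : Bool) (Λ D : Set (ℤ × ℤ)) (E : Finset (ℤ × ℤ))
    (b : ℤ × ℤ → γ) (c : Finset (ℤ × ℤ) → Finset (ℤ × ℤ)) (F : Finset (ℤ × ℤ))
    (u : ℤ × ℤ → ℤ × ℤ) (xs xe R : ℤ) (bot pc : ℤ → ℤ) (Hl : ℤ → ℤ → Prop) (J : Finset ℤ) : Prop where
  /-- no change off `J` -/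
  cst : ∀ x, xs - R ≤ x → x ≤ xe + R → x ∉ J → bot (x - 1) = bot x ∧ pc (x - 1) = pc x
  sep : ∀ i ∈ J, ∀ j ∈ J, i < j → i + R ≤ j
  jump : ∀ i ∈ J, bot (i - 1) = bot i ∨ bot (i - 1) + R ≤ bot i ∨ bot i + R ≤ bot (i - 1)
  /-- the tiles of the room -/
  nat : ∀ x h, Wdw xs xe R bot x h → bot x ≤ h →
    τ s x h ∈ Λ ∧ τ s x h ∉ D ∧ τ s x h ∈ E ∧ (∀ l ∈ E, b l = b (τ s x h) → l = τ s x h) ∧
    ∀ ω ⊆ E, (τ s x h ∈ c ω ↔ τ s x h ∈ ω)
  /-- the wall tiles which touch the room -/
  wal : ∀ x h, Wdw xs xe R bot x h → Wall bot Hl x h → τ s x h ∈ Λ ∧ τ s x h ∉ D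
  /-- a piece has one colour -/
  col : ∀ x h x' h', Wdw xs xe R bot x h → Wall bot Hl x h → Wdw xs xe R bot x' h' →
    Wall bot Hl x' h' → pc x = pc x' → ∀ ω : Finset γ,
    (τ s x h ∈ c (up E b ω) ↔ τ s x' h' ∈ c (up E b ω))
  /-- holes are diagonal tiles at convex corners of the room -/
  hol : ∀ x h, Wdw xs xe R bot x h → Hl x h → h + 1 < bot x ∧ ∀ x', |x' - x| ≤ 1 → h + 1 ≤ bot x'
  /-- at a hole: if the corner point is a vertex, then one of the two walls is open -/
  hcV : ∀ x h x' v, Wdw xs xe R bot x h → Hl x h → |x' - x| ≤ 1 → bot x' = h + 1 →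
    EndV (τ s x h) v → EndV (τ s x' (h + 1)) v → ∀ ω : Finset γ,
    (τ s x' h ∈ c (up E b ω) ∨ τ s x (h + 1) ∈ c (up E b ω))
  /-- if it is a face, then one of them is closed -/
  hcF : ∀ x h x' v, Wdw xs xe R bot x h → Hl x h → |x' - x| ≤ 1 → bot x' = h + 1 →
    EndF (τ s x h) v → EndF (τ s x' (h + 1)) v → ∀ ω : Finset γ,
    (τ s x' h ∉ c (up E b ω) ∨ τ s x (h + 1) ∉ c (up E b ω))
  /-- the forced tiles in the windows -/
  row : ∀ x h, Wdw xs xe R bot x h → Tch bot x h → τ s x h ∈ F →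
    h = bot x ∧ u (τ s x h) = uB s (τ s x h)

variable {s : Bool} {x h x' h' xs xe R : ℤ} {bot : ℤ → ℤ}

lemma τ_inj (e : τ s x h = τ s x' h') : x = x' ∧ h = h' := by
  unfold τ at e
  have := lt_inj e
  cases s <;> simp [Prod.ext_iff] at this <;> omega

lemma τ_odd : ((τ s x h).1 + (τ s x h).2) % 2 = 1 := lt_odd _

lemma τ_pred : τ s x (h - 1) = uB s (τ s x h) := by
  unfold τ uB nB lt
  cases s <;> simp [Prod.ext_iff] <;> constructor <;> ring

lemma exists_τ (s : Bool) {e : ℤ × ℤ} (he : (e.1 + e.2) % 2 = 1) : ∃ x h, e = τ s x h := by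
  have h1 := lt_tt he
  cases s
  · refine ⟨(tt e).1, -1 - (tt e).2, ?_⟩
    unfold τ
    simpa using h1.symm
  · refine ⟨(tt e).1, (tt e).2, ?_⟩
    unfold τ
    simpa using h1.symm

/-- the configurations `ω ∪ W` : a criterion for `Bank.col` -/
lemma same_union {γ : Type*} [DecidableEq γ] {E W : Finset (ℤ × ℤ)} {b : ℤ × ℤ → γ} {l l' : ℤ × ℤ}
    (hWE : Disjoint W E) (h : (l ∈ W ∧ l' ∈ W) ∨ (l ∉ W ∧ l ∉ E ∧ l' ∉ W ∧ l' ∉ E) ∨
      (l ∈ E ∧ l' ∈ E ∧ b l = b l')) (ω : Finset γ) :
    (l ∈ up E b ω ∪ W ↔ l' ∈ up E b ω ∪ W) := by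
  rw [mem_union, mem_union, mem_up, mem_up]
  rcases h with ⟨h1, h2⟩ | ⟨h1, h2, h3, h4⟩ | ⟨h1, h2, h3⟩
  · simp [h1, h2]
  · simp [h1, h2, h3, h4]
  · have k1 : l ∉ W := fun h => disjoint_left.1 hWE h h1
    have k2 : l' ∉ W := fun h => disjoint_left.1 hWE h h2
    simp [h1, h2, h3, k1, k2]

end Pool.Agent.H92.W
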