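import Mathlib
import Pool.Agent.H92.W.Zone

set_option autoImplicit false
open Finset

/-! # Moving a wall by one row: the deterministic part

`force F n w` : the labels `f ∈ F` get the state of the neighbour `n f` (a wall label or a label of a
plate). `force_eq` : this does not change a functional of the link patterns, if for no `f ∈ F` the cluster
(open cluster, if `n f` is open; closed cluster, if it is closed) of the free vertex (face) of `f` in the
natural labels of the zone of `f` leaves the zone at a vertex (face) off the walls. If the walls of the zone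
have one colour, one may add that this cluster does not meet the wall. -/

namespace Pool.Agent.H92.W

open Pool.Agent.H75.Perc Pool.Agent.H75.TwoArm Pool.Agent.Q1 H80.W Pool.Agent.H39.Q1

variable {w w1 Z N S F : Finset (ℤ × ℤ)} {f l u v x y φ ψ : ℤ × ℤ} {n : ℤ × ℤ → ℤ × ℤ}

lemma insert_inter_zone (hf : f ∈ Z) : insert f w ∩ Z = insert f (w ∩ Z) :=
  insert_inter_of_mem hf

/-- opening a label, (A) or (B) -/
theorem same_open (hz : ZF Z) (hf : f ∈ Z) (hfw : f ∉ w) (hu : EndV f u) (hv : EndV f v)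
    (hne : u ≠ v) (h : Co (w ∩ Z) u v ∨ ∀ x, Co (w ∩ Z) v x → ¬ OutV Z x) :
    Same Z w (insert f w) := by
  obtain ⟨h1, h2⟩ : IsUnit4 (v - u) ∧ u + v = f := by
    rcases two_ends hu hv with h | h
    · exact absurd h hne
    · exact h
  have hfw' : f ∉ w ∩ Z := fun h => hfw (mem_inter.1 h).1
  intro c hc d
  rw [← pat_inter (w := w), ← pat_inter (w := insert f w), insert_inter_zone hf]
  by_cases hj : Co (w ∩ Z) u v
  · exact pat_A hz inter_subset_right hf hfw' h1 h2 hj hc
  · rcases h with h | h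
    · exact absurd h hj
    · exact pat_B hf hfw' h1 h2 hj h hc

/-- opening a label, (C) or (D) -/
theorem same_closed (hz : ZV Z) (hf : f ∈ Z) (hfw : f ∉ w) (hφ : EndF f φ) (hψ : EndF f ψ)
    (hne : φ ≠ ψ) (h : Co (du (Z.erase f) w) φ ψ ∨ ∀ x, Co (du (Z.erase f) w) ψ x → ¬ OutF Z x) :
    Same Z w (insert f w) := by
  obtain ⟨h1, h2⟩ : IsUnit4 (ψ - φ) ∧ φ + ψ - (1, 1) = f := by
    rcases two_faces hφ hψ with h | h
    · exact absurd h hne
    · exact h
  have h2' := face_add h2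
  intro c hc d
  by_cases hj : Co (du (Z.erase f) w) φ ψ
  · exact pat_C hz hf hfw h1 h2' hj hc
  · rcases h with h | h
    · exact absurd h hj
    · have hcl : ∀ x, DCo (insert f w) ψ x → Co (du (Z.erase f) w) ψ x := by
        intro x hx
        refine DCo.ind (P := fun x => Co (du (Z.erase f) w) ψ x) hx (Co.refl _ _) ?_
        intro a b ha h3 h4
        have h5 : a + b - (1, 1) ∈ Z := by
          by_contra hcon
          exact h a ha ⟨b, h3, hcon⟩
        refine ha.tail ⟨h3, mem_du_iff.2 ⟨mem_erase.2 ⟨?_, h5⟩, ?_⟩⟩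
        · intro h6; exact h4 (by rw [h6]; exact mem_insert_self _ _)
        · intro h6; exact h4 (mem_insert_of_mem h6)
      have h6 : ¬ DCo (insert f w) ψ φ := fun h7 => hj (hcl φ h7).symm
      refine pat_D hf hfw (φ := ψ) (ψ := φ) ?_ (by rw [add_comm]; exact h2') h6
        (fun x hx => h x (hcl x hx)) hc
      have := isUnit4_neg h1
      rwa [neg_sub] at this

/-- either the vertex is joined to the wall, or its cluster does not meet the wall and uses only the
labels of `O` -/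
lemma alt {η O : Finset (ℤ × ℤ)} {A : ℤ × ℤ → Prop} (hA : ∀ a, A a → Co η u a)
    (hO : ∀ x y, IsUnit4 (y - x) → x + y ∈ η → x + y ∉ O → A x ∨ A y) :
    Co η u v ∨ ∀ y, Co η v y → ¬ A y ∧ Co (η ∩ O) v y := by
  by_cases hj : Co η u v
  · exact Or.inl hj
  · right
    have h1 : ∀ y, Co η v y → ¬ A y := fun y hy ha => hj ((hA y ha).trans hy.symm)
    intro y hy
    refine ⟨h1 y hy, ?_⟩
    have : ∀ z, Co η v z → Co (η ∩ O) v z := by
      intro z hz
      induction hz with
      | refl => exact Co.refl _ _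
      | @tail b c hb hbc ih =>
        refine ih.tail ⟨hbc.1, mem_inter.2 ⟨hbc.2, ?_⟩⟩
        by_contra hcon
        rcases hO b c hbc.1 hbc.2 hcon with h | h
        · exact h1 b hb h
        · exact h1 c (hb.tail hbc) h
    exact this y hy

/-! ### The forced configuration -/

open Classical in
/-- the labels of `F` get the state of their neighbours -/
noncomputable def force (F : Finset (ℤ × ℤ)) (n : ℤ × ℤ → ℤ × ℤ) (w : Finset (ℤ × ℤ)) :
    Finset (ℤ × ℤ) := (w \ F) ∪ F.filter (fun f => n f ∈ w)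

lemma mem_force : l ∈ force F n w ↔ (l ∈ w ∧ l ∉ F) ∨ (l ∈ F ∧ n l ∈ w) := by
  classical
  unfold force
  rw [mem_union, mem_sdiff, mem_filter]

lemma mem_force_off (h : l ∉ F) : l ∈ force F n w ↔ l ∈ w := by
  rw [mem_force]; tauto

lemma force_empty : force ∅ n w = w := by
  ext l; rw [mem_force_off (notMem_empty l)]

/-- the vertices of the open walls -/
def WallV (Z N w : Finset (ℤ × ℤ)) (x : ℤ × ℤ) : Prop := ∃ l, l ∈ Z ∧ l ∉ N ∧ l ∈ w ∧ EndV l x

/-- the faces of the closed walls -/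
def WallF (Z N w : Finset (ℤ × ℤ)) (x : ℤ × ℤ) : Prop := ∃ l, l ∈ Z ∧ l ∉ N ∧ l ∉ w ∧ EndF l x

/-- **a zone** `Z` with natural labels `N`, the other labels are walls -/
structure IsZone (F : Finset (ℤ × ℤ)) (n : ℤ × ℤ → ℤ × ℤ) (Z N : Finset (ℤ × ℤ)) : Prop where
  sub : N ⊆ Z
  zf : ZF Z
  zv : ZV Z
  nat : ∀ f ∈ F, f ∈ Z → f ∈ N
  odd : ∀ f ∈ F, f ∈ Z → (f.1 + f.2) % 2 = 1
  nb : ∀ f ∈ F, f ∈ Z → SA f (n f)
  nZ : ∀ f ∈ F, f ∈ Z → n f ∈ Z
  nN : ∀ f ∈ F, f ∈ Z → n f ∉ N

/-- the open walls of the zone are connected, the closed walls too -/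
structure Conn (Z N w : Finset (ℤ × ℤ)) : Prop where
  op : ∀ x y, WallV Z N w x → WallV Z N w y → Co (w ∩ (Z \ N)) x y
  cl : ∀ x y, WallF Z N w x → WallF Z N w y → Co (du (Z \ N) w) x y

/-- the walls of the zone have one colour -/
def Mono (Z N w : Finset (ℤ × ℤ)) : Prop :=
  ∀ l l', l ∈ Z → l ∉ N → l' ∈ Z → l' ∉ N → (l ∈ w ↔ l' ∈ w)

/-- the open cluster of `v` in the natural labels leaves the zone -/
def BadV (Z N w : Finset (ℤ × ℤ)) (v : ℤ × ℤ) : Prop :=
  ∃ x, Co (w ∩ N) v x ∧ OutV Z x ∧ ¬ WallV Z N w x ∧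
    (Mono Z N w → ∀ y, Co (w ∩ N) v y → ¬ WallV Z N w y)

/-- the closed cluster of `ψ` in the natural labels leaves the zone -/
def BadF (Z N w : Finset (ℤ × ℤ)) (ψ : ℤ × ℤ) : Prop :=
  ∃ x, Co (du N w) ψ x ∧ OutF Z x ∧ ¬ WallF Z N w x ∧
    (Mono Z N w → ∀ y, Co (du N w) ψ y → ¬ WallF Z N w y)

lemma EndV.of_add (h : IsUnit4 (y - x)) : EndV (x + y) x := ⟨y, h, rfl⟩

lemma unit_swap (h : IsUnit4 (y - x)) : IsUnit4 (x - y) := by
  have := isUnit4_neg h
  rwa [neg_sub] at this

lemma EndV.other (h : EndV (x + y) v) (hxy : IsUnit4 (y - x)) : v = x ∨ v = y := by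
  rcases two_ends (EndV.of_add hxy) h with h1 | ⟨-, h2⟩
  · exact Or.inl h1.symm
  · exact Or.inr (add_left_cancel h2)

lemma EndF.of_add (h : IsUnit4 (y - x)) : EndF (x + y - (1, 1)) x := ⟨y, h, rfl⟩

lemma EndF.other (h : EndF (x + y - (1, 1)) v) (hxy : IsUnit4 (y - x)) : v = x ∨ v = y := by
  rcases two_faces (EndF.of_add hxy) h with h1 | ⟨-, h2⟩
  · exact Or.inl h1.symm
  · exact Or.inr (add_left_cancel (sub_left_injective h2))

lemma not_SA_self : ¬ SA f f := by
  unfold SA; omega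

/-- the vertex of `f` which is not a vertex of the neighbour -/
lemma free_vertex (hSA : SA f l) (ho : (f.1 + f.2) % 2 = 1) :
    ∃ u v, EndV f u ∧ EndV l u ∧ EndV f v ∧ ¬ EndV l v ∧ u ≠ v := by
  obtain ⟨u, hu1, hu2⟩ := hSA.endV ho
  obtain ⟨v, h1, h2⟩ := hu1
  have hne : u ≠ v := by
    rintro rfl
    rw [sub_self] at h1
    rcases h1 with h | h | h | h <;> simp [Prod.ext_iff] at h
  refine ⟨u, v, ⟨v, h1, h2⟩, hu2, ⟨u, unit_swap h1, by rw [add_comm]; exact h2⟩, ?_, hne⟩
  intro h3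
  rcases two_ends hu2 h3 with h4 | ⟨-, h4⟩
  · exact hne h4
  · rw [h2] at h4
    subst h4
    exact not_SA_self hSA

lemma free_face (hSA : SA f l) (ho : (f.1 + f.2) % 2 = 1) :
    ∃ u v, EndF f u ∧ EndF l u ∧ EndF f v ∧ ¬ EndF l v ∧ u ≠ v := by
  obtain ⟨u, hu1, hu2⟩ := hSA.endF ho
  obtain ⟨v, h1, h2⟩ := hu1
  have hne : u ≠ v := by
    rintro rfl
    rw [sub_self] at h1
    rcases h1 with h | h | h | h <;> simp [Prod.ext_iff] at h
  refine ⟨u, v, ⟨v, h1, h2⟩, hu2, ⟨u, unit_swap h1, by rw [add_comm]; exact h2⟩, ?_, hne⟩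
  intro h3
  rcases two_faces hu2 h3 with h4 | ⟨-, h4⟩
  · exact hne h4
  · rw [h2] at h4
    subst h4
    exact not_SA_self hSA

/-- forcing a label open -/
theorem step_open (hZ : IsZone F n Z N) (hC : Conn Z N w1) (hS : S ⊆ F) (hf : f ∈ F) (hfZ : f ∈ Z)
    (hfS : f ∉ S) (hn : n f ∈ w1) (hfw : f ∉ w1)
    (hb : ∀ v, EndV f v → ¬ EndV (n f) v → ¬ BadV Z N w1 v) :
    Same Z (force S n w1) (insert f (force S n w1)) := by
  set w := force S n w1 with hw
  have hwall : ∀ l, l ∈ Z → l ∉ N → (l ∈ w ↔ l ∈ w1) :=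
    fun l h1 h2 => mem_force_off fun h => h2 (hZ.nat l (hS h) h1)
  have hfw' : f ∉ w := by rw [hw, mem_force_off hfS]; exact hfw
  obtain ⟨u, v, hu, hu', hv, hv', hne⟩ := free_vertex (hZ.nb f hf hfZ) (hZ.odd f hf hfZ)
  have hnZ := hZ.nZ f hf hfZ
  have hnN := hZ.nN f hf hfZ
  refine same_open hZ.zf hfZ hfw' hu hv hne ?_
  have halt := alt (η := w ∩ Z) (O := N \ S) (A := WallV Z N w1) (u := u) (v := v) ?_ ?_
  · rcases halt with h | h
    · exact Or.inl h
    · right
      intro x hx hout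
      refine hb v hv hv' ⟨x, (h x hx).2.mono ?_, hout, (h x hx).1,
        fun hmono y hy => (h y (hy.mono ?_)).1⟩
      · intro l hl
        rw [mem_inter, mem_inter, mem_sdiff] at hl
        refine mem_inter.2 ⟨?_, hl.2.1⟩
        rw [hw] at hl
        exact (mem_force_off hl.2.2).1 hl.1.1
      · intro l hl
        rw [mem_inter] at hl
        have hlZ := hZ.sub hl.2
        refine mem_inter.2 ⟨?_, hlZ⟩
        rw [hw, mem_force]
        by_cases hlS : l ∈ S
        · exact Or.inr ⟨hlS, (hmono _ _ (hZ.nZ l (hS hlS) hlZ) (hZ.nN l (hS hlS) hlZ) hnZ hnN).2 hn⟩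
        · exact Or.inl ⟨hl.1, hlS⟩
  · intro a ha
    refine (hC.op u a ⟨n f, hnZ, hnN, hn, hu'⟩ ha).mono fun l hl => ?_
    rw [mem_inter, mem_sdiff] at hl
    exact mem_inter.2 ⟨(hwall _ hl.2.1 hl.2.2).2 hl.1, hl.2.1⟩
  · intro x y hxy hl hl'
    rw [mem_inter] at hl
    by_cases hN : x + y ∈ N
    · have hlS : x + y ∈ S := by
        by_contra h
        exact hl' (mem_sdiff.2 ⟨hN, h⟩)
      have hnl : n (x + y) ∈ w1 := by
        have := hl.1
        rw [hw, mem_force] at this
        rcases this with h | h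
        · exact absurd hlS h.2
        · exact h.2
      obtain ⟨z, hz1, hz2⟩ := (hZ.nb _ (hS hlS) hl.2).endV (hZ.odd _ (hS hlS) hl.2)
      have hWz : WallV Z N w1 z :=
        ⟨n (x + y), hZ.nZ _ (hS hlS) hl.2, hZ.nN _ (hS hlS) hl.2, hnl, hz2⟩
      rcases hz1.other hxy with rfl | rfl
      · exact Or.inl hWz
      · exact Or.inr hWz
    · exact Or.inl ⟨x + y, hl.2, hN, (hwall _ hl.2 hN).1 hl.1, EndV.of_add hxy⟩

/-- forcing a label closed -/
theorem step_closed (hZ : IsZone F n Z N) (hC : Conn Z N w1) (hS : S ⊆ F) (hf : f ∈ F)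
    (hfZ : f ∈ Z) (hfS : f ∉ S) (hn : n f ∉ w1) (hfw : f ∈ w1)
    (hb : ∀ v, EndF f v → ¬ EndF (n f) v → ¬ BadF Z N w1 v) :
    Same Z ((force S n w1).erase f) (force S n w1) := by
  set w := force S n w1 with hw
  have hwall : ∀ l, l ∈ Z → l ∉ N → (l ∈ w ↔ l ∈ w1) :=
    fun l h1 h2 => mem_force_off fun h => h2 (hZ.nat l (hS h) h1)
  have hfw' : f ∈ w := by rw [hw, mem_force_off hfS]; exact hfw
  have hfN := hZ.nat f hf hfZ
  obtain ⟨u, v, hu, hu', hv, hv', hne⟩ := free_face (hZ.nb f hf hfZ) (hZ.odd f hf hfZ)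
  have hnZ := hZ.nZ f hf hfZ
  have hnN := hZ.nN f hf hfZ
  have hins : insert f (w.erase f) = w := insert_erase hfw'
  have key : Same Z (w.erase f) (insert f (w.erase f)) := by
    refine same_closed hZ.zv hfZ (notMem_erase _ _) hu hv hne ?_
    have halt := alt (η := du (Z.erase f) (w.erase f)) (O := du (N \ S) ∅) (A := WallF Z N w1)
      (u := u) (v := v) ?_ ?_
    · rcases halt with h | h
      · exact Or.inl h
      · right
        intro x hx hout
        refine hb v hv hv' ⟨x, (h x hx).2.mono ?_, hout, (h x hx).1,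
          fun hmono y hy => (h y (hy.mono ?_)).1⟩
        · intro e he
          rw [mem_inter] at he
          obtain ⟨h1, h2⟩ := he
          rw [← sub_add_cancel e (0, 0)] at h1 h2 ⊢
          rw [mem_du_iff] at h1 h2 ⊢
          rw [mem_erase, mem_erase] at h1
          rw [mem_sdiff] at h2
          refine ⟨h2.1.1, fun h3 => h1.2 ⟨h1.1.1, ?_⟩⟩
          rw [hw]
          exact (mem_force_off h2.1.2).2 h3
        · intro e he
          rw [← sub_add_cancel e (0, 0)] at he ⊢
          rw [mem_du_iff] at he ⊢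
          have hlZ := hZ.sub he.1
          refine ⟨mem_erase.2 ⟨fun h => he.2 (h ▸ hfw), hlZ⟩, fun h => ?_⟩
          rw [mem_erase, hw, mem_force] at h
          rcases h.2 with h1 | h1
          · exact he.2 h1.1
          · exact hn ((hmono _ _ (hZ.nZ _ (hS h1.1) hlZ) (hZ.nN _ (hS h1.1) hlZ) hnZ hnN).1 h1.2)
    · intro a ha
      have hE : ∀ l, l ∈ Z → l ∉ N → l ∉ w1 → l ∈ Z.erase f ∧ l ∉ w.erase f := by
        intro l k1 k2 k3
        refine ⟨mem_erase.2 ⟨fun h => k2 (h ▸ hfN), k1⟩, fun h => ?_⟩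
        exact k3 ((hwall _ k1 k2).1 (mem_erase.1 h).2)
      refine (hC.cl u a ⟨n f, hnZ, hnN, hn, hu'⟩ ha).mono fun e he => ?_
      rw [← sub_add_cancel e (0, 0)] at he ⊢
      rw [mem_du_iff] at he ⊢
      rw [mem_sdiff] at he
      exact hE _ he.1.1 he.1.2 he.2
    · intro x y hxy hl hl'
      rw [mem_du_iff] at hl hl'
      rw [mem_erase, mem_erase] at hl
      set l := x + y - (1, 1) with hldef
      have hlw : l ∉ w := fun h => hl.2 ⟨hl.1.1, h⟩
      by_cases hN : l ∈ N
      · have hlS : l ∈ S := by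
          by_contra h
          exact hl' ⟨mem_sdiff.2 ⟨hN, h⟩, notMem_empty _⟩
        have hnl : n l ∉ w1 := fun h => hlw (by rw [hw, mem_force]; exact Or.inr ⟨hlS, h⟩)
        obtain ⟨z, hz1, hz2⟩ := (hZ.nb _ (hS hlS) hl.1.2).endF (hZ.odd _ (hS hlS) hl.1.2)
        have hWz : WallF Z N w1 z :=
          ⟨n l, hZ.nZ _ (hS hlS) hl.1.2, hZ.nN _ (hS hlS) hl.1.2, hnl, hz2⟩
        rcases EndF.other (hldef ▸ hz1) hxy with rfl | rfl
        · exact Or.inl hWz
        · exact Or.inr hWz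
      · exact Or.inl ⟨l, hl.1.2, hN, fun h => hlw ((hwall _ hl.1.2 hN).2 h), EndF.of_add hxy⟩
  rwa [hins] at key

/-- **Moving the wall does not change the pattern.** -/
theorem force_eq {β : Type*} {Φ : Finset (ℤ × ℤ) → β} {Zf Nf : ℤ × ℤ → Finset (ℤ × ℤ)}
    (hz : ∀ f ∈ F, IsZone F n (Zf f) (Nf f)) (hfZ : ∀ f ∈ F, f ∈ Zf f)
    (hc : ∀ f ∈ F, Conn (Zf f) (Nf f) w) (hinv : ∀ f ∈ F, PatInv (Zf f) Φ)
    (hV : ∀ f ∈ F, n f ∈ w → f ∉ w → ∀ v, EndV f v → ¬ EndV (n f) v → ¬ BadV (Zf f) (Nf f) w v)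
    (hF : ∀ f ∈ F, n f ∉ w → f ∈ w → ∀ v, EndF f v → ¬ EndF (n f) v → ¬ BadF (Zf f) (Nf f) w v) :
    Φ (force F n w) = Φ w := by
  classical
  have key : ∀ S : Finset (ℤ × ℤ), S ⊆ F → Φ (force S n w) = Φ w := by
    intro S
    induction S using Finset.induction_on with
    | empty => intro _; rw [force_empty]
    | insert f S hfS ih =>
      intro hS
      have hf : f ∈ F := hS (mem_insert_self _ _)
      have hS' : S ⊆ F := fun l hl => hS (mem_insert_of_mem hl)
      rw [← ih hS']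
      have hmem : ∀ l, l ≠ f → (l ∈ force (insert f S) n w ↔ l ∈ force S n w) := by
        intro l hl
        rw [mem_force, mem_force, mem_insert]
        tauto
      have hmf : f ∈ force (insert f S) n w ↔ n f ∈ w := by
        rw [mem_force]
        simp
      have hmf' : f ∈ force S n w ↔ f ∈ w := mem_force_off hfS
      by_cases hn : n f ∈ w
      · have e1 : force (insert f S) n w = insert f (force S n w) := by
          ext l
          rw [mem_insert]
          by_cases hl : l = f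
          · subst hl; simp [hmf, hn]
          · rw [hmem l hl]; simp [hl]
        by_cases hfw : f ∈ w
        · rw [e1, insert_eq_of_mem (hmf'.2 hfw)]
        · rw [e1]
          symm
          refine hinv f hf _ _ (fun l hl => ?_)
            (step_open (hz f hf) (hc f hf) hS' hf (hfZ f hf) hfS hn hfw (hV f hf hn hfw))
          rw [mem_insert]
          have : l ≠ f := fun h => hl (h ▸ hfZ f hf)
          simp [this]
      · have e1 : force (insert f S) n w = (force S n w).erase f := by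
          ext l
          rw [mem_erase]
          by_cases hl : l = f
          · subst hl; simp [hmf, hn]
          · rw [hmem l hl]; simp [hl]
        by_cases hfw : f ∈ w
        · rw [e1]
          refine hinv f hf _ _ (fun l hl => ?_)
            (step_closed (hz f hf) (hc f hf) hS' hf (hfZ f hf) hfS hn hfw (hF f hf hn hfw))
          rw [mem_erase]
          have : l ≠ f := fun h => hl (h ▸ hfZ f hf)
          simp [this]
        · rw [e1, erase_eq_of_notMem (fun h => hfw (hmf'.1 h))]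
  exact key F (Subset.refl _)

end Pool.Agent.H92.W
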