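import Mathlib
import Pool.Agent.H92.W.Force
import Pool.Agent.H35.W.Force
import Pool.Agent.H49.Perc.KArms

set_option autoImplicit false
open Finset

/-! # ONE-ROW: zones around the corners of the walls

In a zone around a corner (mark, step, tip) the labels near the corner may be forced unless there is an open
or closed arm of natural labels from the distance `ρ` to the distance `M` of the corner. -/

namespace Pool.Agent.H92.W

open Pool.Agent.H75.Perc Pool.Agent.H75.TwoArm Pool.Agent.Q1 H80.W Pool.Agent.H39.Q1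
open Pool.Agent.H35.W (Force mem_Force StepOK Sees PB_nat PB_mono' Nat1 RZ RZ_zf RZ_zv Dg Od)
open Pool.Agent.H49.Perc (Arm1)
open Pool.Agent.H60.Q1 (Near Far)
open Pool.Agent.H58.W (PB up mem_up up_subset PB_or_le)

variable {w Z N F Fc : Finset (ℤ × ℤ)} {u : ℤ × ℤ → ℤ × ℤ} {e p : ℤ × ℤ} {ρ M : ℤ} {β : Type*}
  {Φ : Finset (ℤ × ℤ) → β}

lemma force_eq_Force : force F u w = Force F u w := by
  ext l
  rw [mem_force, mem_Force]
  tauto

/-- one step in a zone -/
theorem stepOK_zone (hZ : IsZone F u Z N) (hC : Conn Z N w) (hinv : PatInv Z Φ) (he : e ∈ F)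
    (heZ : e ∈ Z) (hV : u e ∈ w → e ∉ w → ∀ v, EndV e v → ¬ EndV (u e) v → ¬ BadV Z N w v)
    (hF : u e ∉ w → e ∈ w → ∀ v, EndF e v → ¬ EndF (u e) v → ¬ BadF Z N w v) :
    StepOK Φ F u w e := by
  classical
  intro S hS heS
  rw [← force_eq_Force, ← force_eq_Force]
  have hmem : ∀ l, l ≠ e → (l ∈ force (insert e S) u w ↔ l ∈ force S u w) := by
    intro l hl
    rw [mem_force, mem_force, mem_insert]
    tauto
  have hmf : e ∈ force (insert e S) u w ↔ u e ∈ w := by
    rw [mem_force]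
    simp
  have hmf' : e ∈ force S u w ↔ e ∈ w := mem_force_off heS
  by_cases hn : u e ∈ w
  · have e1 : force (insert e S) u w = insert e (force S u w) := by
      ext l
      rw [mem_insert]
      by_cases hl : l = e
      · subst hl; simp [hmf, hn]
      · rw [hmem l hl]; simp [hl]
    by_cases hfw : e ∈ w
    · rw [e1, insert_eq_of_mem (hmf'.2 hfw)]
    · rw [e1]
      refine hinv _ _ (fun l hl => ?_)
        (step_open hZ hC hS he heZ heS hn hfw (hV hn hfw))
      rw [mem_insert]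
      have : l ≠ e := fun h => hl (h ▸ heZ)
      simp [this]
  · have e1 : force (insert e S) u w = (force S u w).erase e := by
      ext l
      rw [mem_erase]
      by_cases hl : l = e
      · subst hl; simp [hmf, hn]
      · rw [hmem l hl]; simp [hl]
    by_cases hfw : e ∈ w
    · rw [e1]
      symm
      refine hinv _ _ (fun l hl => ?_)
        (step_closed hZ hC hS he heZ heS hn hfw (hF hn hfw))
      rw [mem_erase]
      have : l ≠ e := fun h => hl (h ▸ heZ)
      simp [this]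
    · rw [e1, erase_eq_of_notMem (fun h => hfw (hmf'.1 h))]

/-- **the zone of a corner**: the tiles `Fc` are at distance `≤ ρ` of `p`, a vertex (face) of a natural label
which touches the outside of the zone is at distance `≥ M` or belongs to an open (closed) wall -/
structure Corner (F : Finset (ℤ × ℤ)) (u : ℤ × ℤ → ℤ × ℤ) (Z N Fc : Finset (ℤ × ℤ)) (p : ℤ × ℤ)
    (ρ M : ℤ) (w : Finset (ℤ × ℤ)) : Prop where
  zone : IsZone F u Z N
  inF : ∀ e ∈ Fc, e ∈ F
  inZ : ∀ e ∈ Fc, e ∈ Z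
  nearV : ∀ e ∈ Fc, ∀ v, EndV e v → Near p ρ v
  nearF : ∀ e ∈ Fc, ∀ v, EndF e v → Near p ρ v
  farV : ∀ l ∈ N, ∀ x, EndV l x → OutV Z x → Far p M x ∨ WallV Z N w x
  farF : ∀ l ∈ N, ∀ x, EndF l x → OutF Z x → Far p M x ∨ WallF Z N w x
  odd : ∀ l ∈ N, (l.1 + l.2) % 2 = 1

/-- an open or closed arm of natural labels -/
def ArmBad (N : Finset (ℤ × ℤ)) (p : ℤ × ℤ) (ρ M : ℤ) (w : Finset (ℤ × ℤ)) : Prop :=
  Arm1 p ρ M (w ∩ N) ∨ Arm1 p ρ M (du N w)

lemma last_label {η : Finset (ℤ × ℤ)} {v x : ℤ × ℤ} (h : Co η v x) (hne : v ≠ x) :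
    ∃ l ∈ η, EndV l x := by
  rcases Relation.ReflTransGen.cases_tail h with h1 | ⟨c, -, h1⟩
  · exact absurd h1.symm hne
  · exact ⟨c + x, h1.2, ⟨c, unit_swap h1.1, add_comm _ _⟩⟩

lemma endF_of_endV {l x : ℤ × ℤ} (h : EndV l x) : EndF (l - (1, 1)) x := by
  obtain ⟨y, h1, h2⟩ := h
  exact ⟨y, h1, by rw [h2]⟩

/-- the labels near the corner may be forced -/
theorem corner_ok (hc : Corner F u Z N Fc p ρ M w) (hC : Conn Z N w) (hinv : PatInv Z Φ)
    (hb : ¬ ArmBad N p ρ M w) : ∀ e ∈ Fc, StepOK Φ F u w e := by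
  intro e he
  unfold ArmBad at hb
  rw [not_or] at hb
  have heN := hc.zone.nat e (hc.inF e he) (hc.inZ e he)
  refine stepOK_zone hc.zone hC hinv (hc.inF e he) (hc.inZ e he) ?_ ?_
  · rintro - - v hv - ⟨x, h1, h2, hw, -⟩
    apply hb.1
    have hn := hc.nearV e he v hv
    have hfar : Far p M x := by
      by_cases hvx : v = x
      · subst hvx
        exact (hc.farV e heN v hv h2).resolve_right hw
      · obtain ⟨l, hl, hl'⟩ := last_label h1 hvx
        exact (hc.farV l (mem_inter.1 hl).2 x hl' h2).resolve_right hw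
    exact ⟨v, x, hn.1, hn.2, hfar, h1⟩
  · rintro - - v hv - ⟨x, h1, h2, hw, -⟩
    apply hb.2
    have hn := hc.nearF e he v hv
    have hfar : Far p M x := by
      by_cases hvx : v = x
      · subst hvx
        exact (hc.farF e heN v hv h2).resolve_right hw
      · obtain ⟨l, hl, hl'⟩ := last_label h1 hvx
        have h3 : l - (1, 1) ∈ N := by
          obtain ⟨y, -, rfl⟩ := hl'
          exact (mem_du_iff.1 hl).1
        exact (hc.farF _ h3 x (endF_of_endV hl') h2).resolve_right hw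
    exact ⟨v, x, hn.1, hn.2, hfar, h1⟩

/-- **probability of a bad corner**, `c ω` = the configuration -/
theorem PB_corner : ∃ δ : ℝ, 0 < δ ∧ δ < 1 ∧ ∀ {γ : Type*} [DecidableEq γ] {β : Type*}
    (b : ℤ × ℤ → γ) (E F Z N Fc : Finset (ℤ × ℤ)) (c : Finset (ℤ × ℤ) → Finset (ℤ × ℤ))
    (u : ℤ × ℤ → ℤ × ℤ) (Φ : Finset (ℤ × ℤ) → β) (p : ℤ × ℤ) (ρ : ℤ) (k : ℕ), 1 ≤ ρ →
    Nat1 E b N → (∀ ω ⊆ E, c ω ∩ N = ω ∩ N) → (∀ ω : Finset γ, Conn Z N (c (up E b ω))) →
    (∀ ω : Finset γ, Corner F u Z N Fc p ρ (4 ^ k * ρ) (c (up E b ω))) →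
    PatInv Z Φ → PB E b (fun ω => ∃ e ∈ Fc, ¬ StepOK Φ F u (c ω) e) ≤ 2 * (1 - δ) ^ k := by
  obtain ⟨δ, h0, h1, h⟩ := open_arm_decay
  refine ⟨δ, h0, h1, ?_⟩
  intro γ _ β b E F Z N Fc c u Φ p ρ k hρ hN hcN hC hc hinv
  have hodd := (hc ∅).odd
  have hdu : ∀ w w' : Finset (ℤ × ℤ), w ∩ N = w' ∩ N → du N w = du N w' := by
    intro w w' h2
    unfold du
    congr 1
    ext l
    rw [mem_sdiff, mem_sdiff]
    have h3 := congrArg (fun q => l ∈ q) h2
    simp only [mem_inter, eq_iff_iff] at h3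
    tauto
  have s1 : PB E b (fun ω => ∃ e ∈ Fc, ¬ StepOK Φ F u (c ω) e) ≤
      PB E b (fun ω => Arm1 p ρ (4 ^ k * ρ) (c ω ∩ N) ∨
        Arm1 p ρ (4 ^ k * ρ) (du N (c ω))) := by
    apply PB_mono'
    rintro ω ⟨e, he, h2⟩
    by_contra h3
    exact h2 (corner_ok (hc ω) (hC ω) hinv h3 e he)
  have p1 : PB E b (fun ω => Arm1 p ρ (4 ^ k * ρ) (c ω ∩ N)) ≤ (1 - δ) ^ k := by
    rw [PB_nat hN (B := Arm1 p ρ (4 ^ k * ρ))]
    · exact h N hodd p ρ hρ k
    · intro ω hω
      rw [hcN ω hω]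
  have p2 : PB E b (fun ω => Arm1 p ρ (4 ^ k * ρ) (du N (c ω))) ≤ (1 - δ) ^ k := by
    rw [PB_nat hN (B := fun ω => Arm1 p ρ (4 ^ k * ρ) (du N ω))]
    · rw [Pr_du]
      refine h _ ?_ p ρ hρ k
      intro l hl
      rw [mem_map] at hl
      obtain ⟨l', h2, rfl⟩ := hl
      have h3 := hodd l' h2
      have h4 : (sh1 l').1 = l'.1 + 1 := rfl
      have h5 : (sh1 l').2 = l'.2 + 1 := rfl
      rw [h4, h5]
      omega
    · intro ω hω
      rw [hdu (c ω) (ω ∩ N) (by rw [hcN ω hω, inter_assoc, inter_self])]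
  refine s1.trans ((PB_or_le _ _ _ _).trans ?_)
  linarith

/-- functionals of patterns for 35's `Sees` -/
theorem sees_of (hzf : ZF Z) (hzv : ZV Z) (h : PatInv Z Φ) : Sees Φ Z := by
  intro o ho
  refine ⟨{c | Entry Z c}, hzf, hzv, fun c hc => hc, ?_⟩
  intro w hw w' hw' hp
  have key : ∀ {w : Finset (ℤ × ℤ)}, w ⊆ Z → (w ∪ o) ∩ Z = w := by
    intro w hw
    ext l
    rw [mem_inter, mem_union]
    constructor
    · rintro ⟨h1 | h1, h2⟩
      · exact h1
      · exact absurd h2 (disjoint_left.1 ho h1)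
    · exact fun h1 => ⟨Or.inl h1, hw h1⟩
  refine h _ _ (fun e he => ?_) fun c hc d => ?_
  · rw [mem_union, mem_union]
    constructor
    · rintro (h1 | h1)
      · exact absurd (hw h1) he
      · exact Or.inr h1
    · rintro (h1 | h1)
      · exact absurd (hw' h1) he
      · exact Or.inr h1
  · rw [← pat_inter (w := w ∪ o), ← pat_inter (w := w' ∪ o), key hw, key hw']
    exact hp c hc d

/-- the tile rectangles of 35 -/
theorem sees_RZ {n e : ℤ × ℤ} {T : ℤ} (hd : Dg n) (he : Od e) (h : PatInv (RZ n e T) Φ) :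
    Sees Φ (RZ n e T) := sees_of (RZ_zf hd he) (RZ_zv hd he) h

end Pool.Agent.H92.W
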