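import Mathlib
import Pool.Agent.H92.W.Bank
import Pool.Agent.H92.W.Corner

set_option autoImplicit false
open Finset

/-! # ONE-ROW: the corner zones of a bank

`ZC s bot Hl i y0 r` : the tiles of the box of radius `r` around the corner `(i, y0)` which belong to the room
or are used wall tiles. -/

namespace Pool.Agent.H92.W

open Pool.Agent.H75.Perc Pool.Agent.H75.TwoArm Pool.Agent.Q1 Pool.Agent.H33.Q1 H80.W
open Pool.Agent.H35.W (Nat1)
open Pool.Agent.H60.Q1 (Near Far)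
open Pool.Agent.H58.W (up mem_up up_subset)

variable {s : Bool} {x h x' h' i y0 r xs xe R : ℤ} {bot pc : ℤ → ℤ} {Hl : ℤ → ℤ → Prop} {e v : ℤ × ℤ}

/-- the box -/
def BoxC (i y0 r x h : ℤ) : Prop := (i - r ≤ x ∧ x < i + r) ∧ (y0 - r ≤ h ∧ h < y0 + r)

open Classical in
/-- the zone -/
noncomputable def ZC (s : Bool) (bot : ℤ → ℤ) (Hl : ℤ → ℤ → Prop) (i y0 r : ℤ) : Finset (ℤ × ℤ) :=
  ((Ico (i - r) (i + r) ×ˢ Ico (y0 - r) (y0 + r)).filter
    (fun q => bot q.1 ≤ q.2 ∨ Wall bot Hl q.1 q.2)).image (fun q => τ s q.1 q.2)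

open Classical in
/-- its natural labels -/
noncomputable def NC (s : Bool) (bot : ℤ → ℤ) (i y0 r : ℤ) : Finset (ℤ × ℤ) :=
  ((Ico (i - r) (i + r) ×ˢ Ico (y0 - r) (y0 + r)).filter (fun q => bot q.1 ≤ q.2)).image
    (fun q => τ s q.1 q.2)

lemma mem_ZC' : e ∈ ZC s bot Hl i y0 r ↔ ∃ x h, e = τ s x h ∧ BoxC i y0 r x h ∧
    (bot x ≤ h ∨ Wall bot Hl x h) := by
  classical
  unfold ZC BoxC
  simp only [mem_image, mem_filter, mem_product, mem_Ico, Prod.exists]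
  constructor
  · rintro ⟨x, h, ⟨⟨h1, h2⟩, h3⟩, rfl⟩
    exact ⟨x, h, rfl, ⟨h1, h2⟩, h3⟩
  · rintro ⟨x, h, rfl, ⟨h1, h2⟩, h3⟩
    exact ⟨x, h, ⟨⟨h1, h2⟩, h3⟩, rfl⟩

lemma mem_NC' : e ∈ NC s bot i y0 r ↔ ∃ x h, e = τ s x h ∧ BoxC i y0 r x h ∧ bot x ≤ h := by
  classical
  unfold NC BoxC
  simp only [mem_image, mem_filter, mem_product, mem_Ico, Prod.exists]
  constructor
  · rintro ⟨x, h, ⟨⟨h1, h2⟩, h3⟩, rfl⟩
    exact ⟨x, h, rfl, ⟨h1, h2⟩, h3⟩
  · rintro ⟨x, h, rfl, ⟨h1, h2⟩, h3⟩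
    exact ⟨x, h, ⟨⟨h1, h2⟩, h3⟩, rfl⟩

lemma mem_ZC : τ s x h ∈ ZC s bot Hl i y0 r ↔ BoxC i y0 r x h ∧
    (bot x ≤ h ∨ Wall bot Hl x h) := by
  rw [mem_ZC']
  constructor
  · rintro ⟨x', h', h0, h1, h2⟩
    obtain ⟨rfl, rfl⟩ := τ_inj h0
    exact ⟨h1, h2⟩
  · rintro ⟨h1, h2⟩
    exact ⟨x, h, rfl, h1, h2⟩

lemma mem_NC : τ s x h ∈ NC s bot i y0 r ↔ BoxC i y0 r x h ∧ bot x ≤ h := by
  rw [mem_NC']
  constructor
  · rintro ⟨x', h', h0, h1, h2⟩
    obtain ⟨rfl, rfl⟩ := τ_inj h0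
    exact ⟨h1, h2⟩
  · rintro ⟨h1, h2⟩
    exact ⟨x, h, rfl, h1, h2⟩

lemma Tch.up (h1 : Tch bot x h) (h2 : h ≤ h') : Tch bot x h' := by
  obtain ⟨x', h3, h4⟩ := h1
  exact ⟨x', h3, by omega⟩

lemma Tch.of (h1 : bot x ≤ h + 1) : Tch bot x h := ⟨x, by simp, h1⟩

/-- holes are at the lower end of the used part of their column -/
lemma hole_low (h1 : Hl x h' → h' + 1 < bot x ∧ ∀ x', |x' - x| ≤ 1 → h' + 1 ≤ bot x')
    (h2 : Wall bot Hl x h) (h3 : h ≤ h') : ¬ Hl x h' := by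
  intro h4
  obtain ⟨x', h5, h6⟩ := h2.2.1
  have h7 := (h1 h4).2 x' h5
  have : h' = h := by omega
  subst this
  exact h2.2.2 h4

/-- columns are intervals -/
lemma ZC_col (hH : ∀ x h, BoxC i y0 r x h → Hl x h → h + 1 < bot x ∧
    ∀ x', |x' - x| ≤ 1 → h + 1 ≤ bot x') : ColConv (ZC s bot Hl i y0 r) := by
  have key : ∀ x h1 h h2, h1 ≤ h → h ≤ h2 → τ s x h1 ∈ ZC s bot Hl i y0 r →
      τ s x h2 ∈ ZC s bot Hl i y0 r → τ s x h ∈ ZC s bot Hl i y0 r := by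
    intro x h1 h h2 a1 a2 a3 a4
    rw [mem_ZC] at a3 a4 ⊢
    have hbox : BoxC i y0 r x h := by
      unfold BoxC at *
      exact ⟨a3.1.1, by omega⟩
    refine ⟨hbox, ?_⟩
    by_cases hb : bot x ≤ h
    · exact Or.inl hb
    · right
      rcases a3.2 with a5 | a5
      · omega
      · exact ⟨by omega, a5.2.1.up a1, hole_low (hH x h hbox) a5 a1⟩
  intro x y1 y y2 h1 h2 h3 h4
  cases s
  · have e1 : ∀ y, lt (x, y) = τ false x (-1 - y) := by
      intro y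
      unfold τ
      simp
    rw [e1] at h3 h4 ⊢
    exact key x _ _ _ (by omega) (by omega) h4 h3
  · have e1 : ∀ y, lt (x, y) = τ true x y := by
      intro y
      unfold τ
      simp
    rw [e1] at h3 h4 ⊢
    exact key x _ _ _ h1 h2 h3 h4

/-- chains in a column -/
lemma Ch_colτ {K : Set (ℤ × ℤ)} (h1 : h ≤ h') (h2 : ∀ k, h ≤ k → k ≤ h' → τ s x k ∈ K) :
    Ch K (τ s x h) (τ s x h') := by
  cases s
  · have h3 := Ch_col (K := K) (x := x) (y := -1 - h') (y' := -1 - h) (by omega) (by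
      intro k k1 k2
      have := h2 (-1 - k) (by omega) (by omega)
      unfold τ at this
      simpa using this)
    unfold τ
    simpa using h3.symm
  · have h3 := Ch_col (K := K) (x := x) (y := h) (y' := h') h1 (by
      intro k k1 k2
      have := h2 k (by omega) (by omega)
      unfold τ at this
      simpa using this)
    unfold τ
    simpa using h3

/-- chains in a row -/
lemma Ch_rowτ {K : Set (ℤ × ℤ)} (h1 : x ≤ x') (h2 : ∀ k, x ≤ k → k ≤ x' → τ s k h ∈ K) :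
    Ch K (τ s x h) (τ s x' h) := Ch_row h1 h2

lemma SA_τ : SA (τ s x h) (τ s (x + 1) h) := SA_right _ _

lemma SA_τ' : SA (τ s x h) (τ s x (h - 1)) := by
  unfold SA τ lt
  cases s <;> simp <;> omega

/-- the labels at a vertex of a label are neighbours -/
lemma nbr_V (h1 : EndV (τ s x h) v) (h2 : EndV (τ s x' h') v) : |x' - x| ≤ 1 ∧ |h' - h| ≤ 1 := by
  obtain ⟨y, h3, h4⟩ := h1
  obtain ⟨y', h5, h6⟩ := h2
  have h3 := unit_cases h3
  have h5 := unit_cases h5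
  have h7 := congrArg Prod.fst h4
  have h8 := congrArg Prod.snd h4
  have h9 := congrArg Prod.fst h6
  have h10 := congrArg Prod.snd h6
  unfold τ lt at h7 h8 h9 h10
  rw [abs_le, abs_le]
  cases s <;> simp only [Prod.fst_add, Prod.snd_add, if_true, if_false, Bool.false_eq_true] at * <;>
    omega

lemma nbr_F (h1 : EndF (τ s x h) v) (h2 : EndF (τ s x' h') v) : |x' - x| ≤ 1 ∧ |h' - h| ≤ 1 := by
  obtain ⟨y, h3, h4⟩ := h1
  obtain ⟨y', h5, h6⟩ := h2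
  have h3 := unit_cases h3
  have h5 := unit_cases h5
  have h7 := congrArg Prod.fst h4
  have h8 := congrArg Prod.snd h4
  have h9 := congrArg Prod.fst h6
  have h10 := congrArg Prod.snd h6
  unfold τ lt at h7 h8 h9 h10
  rw [abs_le, abs_le]
  cases s <;> simp only [Prod.fst_add, Prod.snd_add, Prod.fst_sub, Prod.snd_sub, if_true, if_false,
    Bool.false_eq_true] at * <;> omega

lemma endV_iff {l v : ℤ × ℤ} : EndV l v ↔
    (l.1 - 2 * v.1 = 1 ∧ l.2 = 2 * v.2) ∨ (l.1 = 2 * v.1 ∧ l.2 - 2 * v.2 = 1) ∨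
    (l.1 - 2 * v.1 = -1 ∧ l.2 = 2 * v.2) ∨ (l.1 = 2 * v.1 ∧ l.2 - 2 * v.2 = -1) := by
  constructor
  · rintro ⟨y, h1, rfl⟩
    have := unit_cases h1
    simp only [Prod.fst_add, Prod.snd_add]
    omega
  · intro h
    refine ⟨l - v, isUnit4_of ?_, by rw [add_sub_cancel]⟩
    simp only [Prod.fst_sub, Prod.snd_sub]
    omega

lemma endF_iff {l v : ℤ × ℤ} : EndF l v ↔
    (l.1 - 2 * v.1 = 0 ∧ l.2 = 2 * v.2 - 1) ∨ (l.1 = 2 * v.1 - 1 ∧ l.2 - 2 * v.2 = 0) ∨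
    (l.1 - 2 * v.1 = -2 ∧ l.2 = 2 * v.2 - 1) ∨ (l.1 = 2 * v.1 - 1 ∧ l.2 - 2 * v.2 = -2) := by
  constructor
  · rintro ⟨y, h1, rfl⟩
    have := unit_cases h1
    simp only [Prod.fst_add, Prod.snd_add, Prod.fst_sub, Prod.snd_sub]
    omega
  · intro h
    refine ⟨l + (1, 1) - v, isUnit4_of ?_, ?_⟩
    · simp only [Prod.fst_sub, Prod.snd_sub, Prod.fst_add, Prod.snd_add]
      omega
    · rw [add_sub_cancel, add_sub_cancel_right]

/-- diagonal neighbours: their common vertex belongs to the two other tiles -/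
lemma diag_V (h1 : EndV (τ s x (h + 1)) v) (h2 : EndV (τ s x' h) v) :
    EndV (τ s x h) v ∧ EndV (τ s x' (h + 1)) v := by
  rw [endV_iff] at h1 h2 ⊢
  rw [endV_iff]
  unfold τ lt at *
  cases s <;> simp only [if_true, if_false, Bool.false_eq_true] at * <;> omega

lemma diag_F (h1 : EndF (τ s x (h + 1)) v) (h2 : EndF (τ s x' h) v) :
    EndF (τ s x h) v ∧ EndF (τ s x' (h + 1)) v := by
  rw [endF_iff] at h1 h2 ⊢
  rw [endF_iff]
  unfold τ lt at *
  cases s <;> simp only [if_true, if_false, Bool.false_eq_true] at * <;> omega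

/-- diagonal neighbours have a common vertex or a common face -/
lemma diag_lab {e e' : ℤ × ℤ} (h : (e'.1 = e.1 ∧ (e'.2 = e.2 + 2 ∨ e'.2 = e.2 - 2)) ∨
    (e'.2 = e.2 ∧ (e'.1 = e.1 + 2 ∨ e'.1 = e.1 - 2))) (ho : (e.1 + e.2) % 2 = 1) :
    (∃ v, EndV e v ∧ EndV e' v) ∨ ∃ v, EndF e v ∧ EndF e' v := by
  rcases Int.emod_two_eq_zero_or_one ((e.1 + e'.1) / 2) with h1 | h1
  · left
    refine ⟨((e.1 + e'.1) / 4, (e.2 + e'.2) / 4), ?_, ?_⟩ <;> rw [endV_iff] <;> simp only <;> omega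
  · right
    refine ⟨((e.1 + e'.1 + 2) / 4, (e.2 + e'.2 + 2) / 4), ?_, ?_⟩ <;> rw [endF_iff] <;>
      simp only <;> omega

lemma diag_pt (hx : x' = x + 1 ∨ x' = x - 1) :
    (∃ v, EndV (τ s x h) v ∧ EndV (τ s x' (h + 1)) v) ∨
    ∃ v, EndF (τ s x h) v ∧ EndF (τ s x' (h + 1)) v := by
  refine diag_lab ?_ τ_odd
  unfold τ lt
  cases s <;> simp only [if_true, if_false, Bool.false_eq_true] <;> omega

/-- the centre of a corner -/
def ctr (s : Bool) (i y0 : ℤ) : ℤ × ℤ := ((τ s i y0).1 / 2, (τ s i y0).2 / 2)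

lemma near_V {r1 : ℤ} (hr : 1 ≤ r1) (h1 : |x - i| ≤ r1) (h2 : EndV (τ s x y0) v) :
    Near (ctr s i y0) (r1 + 1) v := by
  obtain ⟨y, h3, h4⟩ := h2
  have h3 := unit_cases h3
  have h7 := congrArg Prod.fst h4
  have h8 := congrArg Prod.snd h4
  unfold Near ctr τ lt at *
  rw [abs_le] at *
  rw [abs_le]
  cases s <;> simp only [Prod.fst_add, Prod.snd_add, if_true, if_false, Bool.false_eq_true] at * <;>
    omega

lemma near_F {r1 : ℤ} (hr : 1 ≤ r1) (h1 : |x - i| ≤ r1) (h2 : EndF (τ s x y0) v) :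
    Near (ctr s i y0) (r1 + 1) v := by
  obtain ⟨y, h3, h4⟩ := h2
  have h3 := unit_cases h3
  have h7 := congrArg Prod.fst h4
  have h8 := congrArg Prod.snd h4
  unfold Near ctr τ lt at *
  rw [abs_le] at *
  rw [abs_le]
  cases s <;> simp only [Prod.fst_add, Prod.snd_add, Prod.fst_sub, Prod.snd_sub, if_true, if_false,
    Bool.false_eq_true] at * <;> omega

lemma far_V {M : ℤ} (hr : 2 * M + 3 ≤ r) (h1 : ¬ BoxC i y0 r x h) (h2 : EndV (τ s x h) v) : Far (ctr s i y0) M v := by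
  obtain ⟨y, h3, h4⟩ := h2
  have h3 := unit_cases h3
  have h7 := congrArg Prod.fst h4
  have h8 := congrArg Prod.snd h4
  unfold Far ctr τ lt BoxC at *
  rw [le_abs, le_abs]
  cases s <;> simp only [Prod.fst_add, Prod.snd_add, if_true, if_false, Bool.false_eq_true] at * <;>
    omega

lemma far_F {M : ℤ} (hr : 2 * M + 3 ≤ r) (h1 : ¬ BoxC i y0 r x h) (h2 : EndF (τ s x h) v) : Far (ctr s i y0) M v := by
  obtain ⟨y, h3, h4⟩ := h2
  have h3 := unit_cases h3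
  have h7 := congrArg Prod.fst h4
  have h8 := congrArg Prod.snd h4
  unfold Far ctr τ lt BoxC at *
  rw [le_abs, le_abs]
  cases s <;> simp only [Prod.fst_add, Prod.snd_add, Prod.fst_sub, Prod.snd_sub, if_true, if_false,
    Bool.false_eq_true] at * <;> omega

end Pool.Agent.H92.W
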