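import Mathlib
import Pool.Agent.H92.W.BankC

set_option autoImplicit false
open Finset

/-! # ONE-ROW: the corner zones of a bank, second part: the walls in the box of a corner -/

namespace Pool.Agent.H92.W

open Pool.Agent.H75.Perc Pool.Agent.H75.TwoArm Pool.Agent.Q1 Pool.Agent.H33.Q1 H80.W
open Pool.Agent.H58.W (up mem_up up_subset)

variable {s : Bool} {x h x' h' i y0 r xs xe R : ℤ} {bot pc : ℤ → ℤ} {Hl : ℤ → ℤ → Prop} {e v : ℤ × ℤ}
  {γ : Type*} [DecidableEq γ] {Λ D : Set (ℤ × ℤ)} {E F : Finset (ℤ × ℤ)} {b : ℤ × ℤ → γ}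
  {c : Finset (ℤ × ℤ) → Finset (ℤ × ℤ)} {u : ℤ × ℤ → ℤ × ℤ} {J : Finset ℤ}

/-- no change on the right of `i` -/
lemma Bank.right (hB : Bank s Λ D E b c F u xs xe R bot pc Hl J) (hi : i ∈ J) {x0 r1 : ℤ}
    (h1 : xs ≤ x0) (h2 : x0 < xe) (h3 : |x0 - i| ≤ r1) (hr : r + r1 + 2 ≤ R) (n : ℕ)
    (hn : (n : ℤ) ≤ r) : bot (i + n) = bot i ∧ pc (i + n) = pc i := by
  rw [abs_le] at h3
  induction n with
  | zero => simp
  | succ n ih =>
    have h4 := ih (by push_cast at hn; omega)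
    push_cast at hn ⊢
    have h5 := hB.cst (i + (n + 1)) (by omega) (by omega) (by
      intro h6
      have := hB.sep i hi _ h6 (by omega)
      omega)
    have e1 : i + ((n : ℤ) + 1) - 1 = i + n := by ring
    rw [e1] at h5
    exact ⟨h5.1.symm.trans h4.1, h5.2.symm.trans h4.2⟩

/-- no change on the left of `i` -/
lemma Bank.left (hB : Bank s Λ D E b c F u xs xe R bot pc Hl J) (hi : i ∈ J) {x0 r1 : ℤ}
    (h1 : xs ≤ x0) (h2 : x0 < xe) (h3 : |x0 - i| ≤ r1) (hr : r + r1 + 2 ≤ R) (n : ℕ)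
    (hn : (n : ℤ) ≤ r) : bot (i - 1 - n) = bot (i - 1) ∧ pc (i - 1 - n) = pc (i - 1) := by
  rw [abs_le] at h3
  induction n with
  | zero => simp
  | succ n ih =>
    have h4 := ih (by push_cast at hn; omega)
    push_cast at hn ⊢
    have h5 := hB.cst (i - 1 - n) (by omega) (by omega) (by
      intro h6
      have := hB.sep _ h6 i hi (by omega)
      omega)
    have e1 : i - 1 - ((n : ℤ) + 1) = i - 1 - n - 1 := by ring
    rw [e1]
    exact ⟨h5.1.trans h4.1, h5.2.trans h4.2⟩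

lemma Bank.right' (hB : Bank s Λ D E b c F u xs xe R bot pc Hl J) (hi : i ∈ J) {x0 r1 : ℤ}
    (h1 : xs ≤ x0) (h2 : x0 < xe) (h3 : |x0 - i| ≤ r1) (hr : r + r1 + 2 ≤ R) (hx : i ≤ x)
    (hx' : x ≤ i + r) : bot x = bot i ∧ pc x = pc i := by
  have h4 := hB.right hi h1 h2 h3 hr (x - i).toNat (by omega)
  have e1 : i + ((x - i).toNat : ℤ) = x := by omega
  rwa [e1] at h4

lemma Bank.left' (hB : Bank s Λ D E b c F u xs xe R bot pc Hl J) (hi : i ∈ J) {x0 r1 : ℤ}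
    (h1 : xs ≤ x0) (h2 : x0 < xe) (h3 : |x0 - i| ≤ r1) (hr : r + r1 + 2 ≤ R) (hx : x < i)
    (hx' : i - 1 - r ≤ x) : bot x = bot (i - 1) ∧ pc x = pc (i - 1) := by
  have h4 := hB.left hi h1 h2 h3 hr (i - 1 - x).toNat (by omega)
  have e1 : i - 1 - ((i - 1 - x).toNat : ℤ) = x := by omega
  rwa [e1] at h4

/-- the used wall places of the box -/
def KB (bot : ℤ → ℤ) (Hl : ℤ → ℤ → Prop) (i y0 r x h : ℤ) : Prop :=
  BoxC i y0 r x h ∧ Wall bot Hl x h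

lemma wall_iff : (e ∈ ZC s bot Hl i y0 r ∧ e ∉ NC s bot i y0 r) ↔
    ∃ x h, e = τ s x h ∧ KB bot Hl i y0 r x h := by
  constructor
  · rintro ⟨h1, h2⟩
    obtain ⟨x, h, rfl, h3, h4⟩ := mem_ZC'.1 h1
    rw [mem_NC] at h2
    rcases h4 with h4 | h4
    · exact absurd ⟨h3, h4⟩ h2
    · exact ⟨x, h, rfl, h3, h4⟩
  · rintro ⟨x, h, rfl, h1, h2⟩
    refine ⟨mem_ZC.2 ⟨h1, Or.inr h2⟩, fun h5 => ?_⟩
    rw [mem_NC] at h5
    have := h2.1
    omega

/-- the geometry in the box: `A` on the left, `B` on the right -/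
structure LB (bot : ℤ → ℤ) (Hl : ℤ → ℤ → Prop) (i y0 r A B : ℤ) : Prop where
  r1 : 1 ≤ r
  rt : ∀ x, i ≤ x → x ≤ i + r → bot x = B
  lf : ∀ x, x < i → i - 1 - r ≤ x → bot x = A
  y : y0 = A ∨ y0 = B
  ab : A = B ∨ A + (2 * r + 2) ≤ B ∨ B + (2 * r + 2) ≤ A
  hol : ∀ x h, BoxC i y0 r x h → Hl x h → h + 1 < bot x ∧ ∀ x', |x' - x| ≤ 1 → h + 1 ≤ bot x'

variable {A B : ℤ}

lemma LB.col (H : LB bot Hl i y0 r A B) (h1 : KB bot Hl i y0 r x h) (h2 : h ≤ h') (h3 : h' < y0 + r)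
    (h4 : h' < bot x) : KB bot Hl i y0 r x h' := by
  have hbox : BoxC i y0 r x h' := by
    have := h1.1
    unfold BoxC at *
    omega
  exact ⟨hbox, h4, h1.2.2.1.up h2, hole_low (H.hol x h' hbox) h1.2 h2⟩

/-- row of the wall line on the right -/
lemma LB.rowR (H : LB bot Hl i y0 r A B) (hy : y0 = B) (h1 : i ≤ x) (h2 : x < i + r) :
    KB bot Hl i y0 r x (y0 - 1) := by
  have hr := H.r1
  have hb := H.rt x h1 (by omega)
  have hbox : BoxC i y0 r x (y0 - 1) := by unfold BoxC; omega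
  refine ⟨hbox, by omega, Tch.of (by omega), fun h3 => ?_⟩
  have := (H.hol x _ hbox h3).1
  omega

lemma LB.rowL (H : LB bot Hl i y0 r A B) (hy : y0 = A) (h1 : i - r ≤ x) (h2 : x < i) :
    KB bot Hl i y0 r x (y0 - 1) := by
  have hr := H.r1
  have hb := H.lf x h2 (by omega)
  have hbox : BoxC i y0 r x (y0 - 1) := by unfold BoxC; omega
  refine ⟨hbox, by omega, Tch.of (by omega), fun h3 => ?_⟩
  have := (H.hol x _ hbox h3).1
  omega

/-- a vertical wall on the right: only the column `i` -/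
lemma LB.colR (H : LB bot Hl i y0 r A B) (hy : y0 ≠ B) (h1 : KB bot Hl i y0 r x h) (hx : i ≤ x) :
    x = i ∧ y0 = A ∧ A + (2 * r + 2) ≤ B ∧ y0 - 1 ≤ h := by
  have hyA : y0 = A := by have := H.y; tauto
  obtain ⟨h2, h3, ⟨x', h5, h6⟩, -⟩ := id h1
  unfold BoxC at h2
  rw [abs_le] at h5
  have hb := H.rt x hx (by omega)
  have hr := H.r1
  have hab := H.ab
  have hx' : x' < i := by
    by_contra hcon
    have := H.rt x' (by omega) (by omega)
    omega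
  have hb' := H.lf x' hx' (by omega)
  omega

lemma LB.colL (H : LB bot Hl i y0 r A B) (hy : y0 ≠ A) (h1 : KB bot Hl i y0 r x h) (hx : x < i) :
    x = i - 1 ∧ y0 = B ∧ B + (2 * r + 2) ≤ A ∧ y0 - 1 ≤ h := by
  have hyB : y0 = B := by have := H.y; tauto
  obtain ⟨h2, h3, ⟨x', h5, h6⟩, -⟩ := id h1
  unfold BoxC at h2
  rw [abs_le] at h5
  have hb := H.lf x hx (by omega)
  have hr := H.r1
  have hab := H.ab
  have hx' : i ≤ x' := by
    by_contra hcon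
    have := H.lf x' (by omega) (by omega)
    omega
  have hb' := H.rt x' hx' (by omega)
  omega

/-- the right part is connected -/
lemma LB.chR (H : LB bot Hl i y0 r A B) (k1 : KB bot Hl i y0 r x h) (k2 : KB bot Hl i y0 r x' h')
    (h1 : i ≤ x) (h2 : i ≤ x') :
    Ch {l | ∃ x h, l = τ s x h ∧ KB bot Hl i y0 r x h ∧ i ≤ x} (τ s x h) (τ s x' h') := by
  by_cases hy : y0 = B
  · have key : ∀ x h, KB bot Hl i y0 r x h → i ≤ x →
        Ch {l | ∃ x h, l = τ s x h ∧ KB bot Hl i y0 r x h ∧ i ≤ x} (τ s x h) (τ s i (y0 - 1)) := by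
      intro x h k1 h1
      have hb := H.rt x h1 (by have := k1.1; unfold BoxC at this; omega)
      have hw := k1.2.1
      have hr := H.r1
      refine Ch.trans (b := τ s x (y0 - 1)) ?_ (Ch.symm ?_)
      · refine Ch_colτ (by omega) (fun k a1 a2 => ?_)
        refine ⟨x, k, rfl, H.col k1 a1 ?_ ?_, h1⟩ <;> omega
      · refine Ch_rowτ h1 fun k a1 a2 => ?_
        exact ⟨k, y0 - 1, rfl, H.rowR hy a1 (by have := k1.1; unfold BoxC at this; omega), a1⟩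
    exact (key x h k1 h1).trans (key x' h' k2 h2).symm
  · obtain ⟨rfl, c2, c3, c4⟩ := H.colR hy k1 h1
    obtain ⟨d1, d2, d3, d4⟩ := H.colR hy k2 h2
    subst d1
    have hbx := H.rt x' le_rfl (by have := H.r1; omega)
    have b1 := k1.1
    have b2 := k2.1
    unfold BoxC at b1 b2
    rcases le_total h h' with hh | hh
    · exact Ch_colτ hh fun k a1 a2 => ⟨x', k, rfl, H.col k1 a1 (by omega) (by omega), le_rfl⟩
    · refine Ch.symm (Ch_colτ hh fun k a1 a2 => ?_)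
      exact ⟨x', k, rfl, H.col k2 a1 (by omega) (by omega), le_rfl⟩

/-- the left part is connected -/
lemma LB.chL (H : LB bot Hl i y0 r A B) (k1 : KB bot Hl i y0 r x h) (k2 : KB bot Hl i y0 r x' h')
    (h1 : x < i) (h2 : x' < i) :
    Ch {l | ∃ x h, l = τ s x h ∧ KB bot Hl i y0 r x h ∧ x < i} (τ s x h) (τ s x' h') := by
  by_cases hy : y0 = A
  · have key : ∀ x h, KB bot Hl i y0 r x h → x < i →
        Ch {l | ∃ x h, l = τ s x h ∧ KB bot Hl i y0 r x h ∧ x < i} (τ s x h)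
          (τ s (i - 1) (y0 - 1)) := by
      intro x h k1 h1
      have hb := H.lf x h1 (by have := k1.1; unfold BoxC at this; omega)
      have hw := k1.2.1
      have hr := H.r1
      refine Ch.trans (b := τ s x (y0 - 1)) ?_ ?_
      · refine Ch_colτ (by omega) (fun k a1 a2 => ?_)
        refine ⟨x, k, rfl, H.col k1 a1 ?_ ?_, h1⟩ <;> omega
      · refine Ch_rowτ (by omega) fun k a1 a2 => ?_
        exact ⟨k, y0 - 1, rfl, H.rowL hy (by have := k1.1; unfold BoxC at this; omega) (by omega),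
          by omega⟩
    exact (key x h k1 h1).trans (key x' h' k2 h2).symm
  · obtain ⟨c1, c2, c3, c4⟩ := H.colL hy k1 h1
    obtain ⟨d1, d2, d3, d4⟩ := H.colL hy k2 h2
    subst d1
    subst c1
    have hbx := H.lf (i - 1) (by omega) (by have := H.r1; omega)
    have b1 := k1.1
    have b2 := k2.1
    unfold BoxC at b1 b2
    rcases le_total h h' with hh | hh
    · exact Ch_colτ hh fun k a1 a2 => ⟨i - 1, k, rfl, H.col k1 a1 (by omega) (by omega), by omega⟩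
    · refine Ch.symm (Ch_colτ hh fun k a1 a2 => ?_)
      exact ⟨i - 1, k, rfl, H.col k2 a1 (by omega) (by omega), by omega⟩

/-- opposite tiles at a hole: `(x1, h1)` on the right, `(x2, h2)` on the left -/
def Opp (bot : ℤ → ℤ) (Hl : ℤ → ℤ → Prop) (i y0 r x1 h1 x2 h2 : ℤ) : Prop :=
  |x1 - x2| ≤ 1 ∧ ((Hl x2 h1 ∧ BoxC i y0 r x2 h1 ∧ h2 = h1 + 1 ∧ bot x1 = h1 + 1) ∨
    (Hl x1 h2 ∧ BoxC i y0 r x1 h2 ∧ h1 = h2 + 1 ∧ bot x2 = h2 + 1))

/-- the two parts touch or there is a hole -/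
lemma LB.link (H : LB bot Hl i y0 r A B) (hr2 : 2 ≤ r) (k1 : KB bot Hl i y0 r x h)
    (k2 : KB bot Hl i y0 r x' h') (h1 : i ≤ x) (h2 : x' < i) :
    (KB bot Hl i y0 r i (y0 - 1) ∧ KB bot Hl i y0 r (i - 1) (y0 - 1)) ∨
    ∃ x1 h1 x2 h2, KB bot Hl i y0 r x1 h1 ∧ i ≤ x1 ∧ KB bot Hl i y0 r x2 h2 ∧ x2 < i ∧
      Opp bot Hl i y0 r x1 h1 x2 h2 := by
  have hr := H.r1
  by_cases hA : y0 = A
  · by_cases hB : y0 = B
    · exact Or.inl ⟨H.rowR hB le_rfl (by omega), H.rowL hA (by omega) (by omega)⟩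
    · obtain ⟨c1, c2, c3, c4⟩ := H.colR hB k1 h1
      have hL := H.rowL hA (x := i - 1) (by omega) (by omega)
      have hbi := H.rt i le_rfl (by omega)
      have hbi' := H.lf (i - 1) (by omega) (by omega)
      have hbox : BoxC i y0 r i (y0 - 1) := by unfold BoxC; omega
      have hT : Tch bot i (y0 - 1) := ⟨i - 1, by rw [abs_le]; omega, by omega⟩
      by_cases hh : Hl i (y0 - 1)
      · right
        have hbox' : BoxC i y0 r i y0 := by unfold BoxC; omega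
        refine ⟨i, y0, i - 1, y0 - 1, ⟨hbox', by omega, hT.up (by omega), fun h3 => ?_⟩, le_rfl, hL,
          by omega, by rw [abs_le]; omega, Or.inr ⟨hh, hbox, by omega, by omega⟩⟩
        have := (H.hol i y0 hbox' h3).2 (i - 1) (by rw [abs_le]; omega)
        omega
      · exact Or.inl ⟨⟨hbox, by omega, hT, hh⟩, hL⟩
  · obtain ⟨c1, c2, c3, c4⟩ := H.colL hA k2 h2
    have hR := H.rowR c2 (x := i) le_rfl (by omega)
    have hbi := H.rt i le_rfl (by omega)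
    have hbi' := H.lf (i - 1) (by omega) (by omega)
    have hbox : BoxC i y0 r (i - 1) (y0 - 1) := by unfold BoxC; omega
    have hT : Tch bot (i - 1) (y0 - 1) := ⟨i, by rw [abs_le]; omega, by omega⟩
    by_cases hh : Hl (i - 1) (y0 - 1)
    · right
      have hbox' : BoxC i y0 r (i - 1) y0 := by unfold BoxC; omega
      refine ⟨i, y0 - 1, i - 1, y0, hR, le_rfl, ⟨hbox', by omega, hT.up (by omega), fun h3 => ?_⟩,
        by omega, by rw [abs_le]; omega, Or.inl ⟨hh, hbox, by omega, by omega⟩⟩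
      have := (H.hol (i - 1) y0 hbox' h3).2 i (by rw [abs_le]; omega)
      omega
    · exact Or.inl ⟨hR, hbox, by omega, hT, hh⟩

/-- abstract connection of the walls with the colour `P`: `T l x` = the point `x` belongs to `l`,
`Q` = connection of points -/
lemma LB.conn (H : LB bot Hl i y0 r A B) (hr2 : 2 ≤ r) {P : ℤ × ℤ → Prop}
    {T : ℤ × ℤ → ℤ × ℤ → Prop} {Q : ℤ × ℤ → ℤ × ℤ → Prop}
    (hPR : ∀ x h x' h', KB bot Hl i y0 r x h → KB bot Hl i y0 r x' h' → i ≤ x → i ≤ x' →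
      P (τ s x h) → P (τ s x' h'))
    (hPL : ∀ x h x' h', KB bot Hl i y0 r x h → KB bot Hl i y0 r x' h' → x < i → x' < i →
      P (τ s x h) → P (τ s x' h'))
    (hopp : ∀ x1 h1 x2 h2, KB bot Hl i y0 r x1 h1 → KB bot Hl i y0 r x2 h2 →
      Opp bot Hl i y0 r x1 h1 x2 h2 → P (τ s x1 h1) → P (τ s x2 h2) →
      ∃ p, T (τ s x1 h1) p ∧ T (τ s x2 h2) p)
    (hQt : ∀ p q r, Q p q → Q q r → Q p r) (hQs : ∀ p q, Q p q → Q q p)
    (hT : ∀ l, ∃ p, (∃ x h, l = τ s x h) → T l p)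
    (hCh : ∀ l l' p q, Ch {l | (∃ x h, l = τ s x h ∧ KB bot Hl i y0 r x h) ∧ P l} l l' →
      (∃ x h, l = τ s x h ∧ KB bot Hl i y0 r x h) → P l → T l p → T l' q → Q p q)
    {l l' p q : ℤ × ℤ} (k1 : ∃ x h, l = τ s x h ∧ KB bot Hl i y0 r x h)
    (k2 : ∃ x h, l' = τ s x h ∧ KB bot Hl i y0 r x h) (p1 : P l) (p2 : P l')
    (t1 : T l p) (t2 : T l' q) : Q p q := by
  have hR : ∀ x h x' h', KB bot Hl i y0 r x h → KB bot Hl i y0 r x' h' → i ≤ x → i ≤ x' →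
      P (τ s x h) → ∀ p q, T (τ s x h) p → T (τ s x' h') q → Q p q := by
    intro x h x' h' k1 k2 h1 h2 p1 p q t1 t2
    refine hCh _ _ p q ((H.chR k1 k2 h1 h2).mono ?_) ⟨x, h, rfl, k1⟩ p1 t1 t2
    rintro l ⟨x'', h'', rfl, k3, h3⟩
    exact ⟨⟨x'', h'', rfl, k3⟩, hPR x h x'' h'' k1 k3 h1 h3 p1⟩
  have hL : ∀ x h x' h', KB bot Hl i y0 r x h → KB bot Hl i y0 r x' h' → x < i → x' < i →
      P (τ s x h) → ∀ p q, T (τ s x h) p → T (τ s x' h') q → Q p q := by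
    intro x h x' h' k1 k2 h1 h2 p1 p q t1 t2
    refine hCh _ _ p q ((H.chL k1 k2 h1 h2).mono ?_) ⟨x, h, rfl, k1⟩ p1 t1 t2
    rintro l ⟨x'', h'', rfl, k3, h3⟩
    exact ⟨⟨x'', h'', rfl, k3⟩, hPL x h x'' h'' k1 k3 h1 h3 p1⟩
  have hRL : ∀ x h x' h', KB bot Hl i y0 r x h → KB bot Hl i y0 r x' h' → i ≤ x → x' < i →
      P (τ s x h) → P (τ s x' h') → ∀ p q, T (τ s x h) p → T (τ s x' h') q → Q p q := by
    intro x h x' h' k1 k2 h1 h2 p1 p2 p q t1 t2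
    rcases H.link hr2 k1 k2 h1 h2 with ⟨a1, a2⟩ | ⟨x1, c1, x2, c2, a1, a2, a3, a4, a5⟩
    · have q1 : P (τ s i (y0 - 1)) := hPR _ _ _ _ k1 a1 h1 le_rfl p1
      have q2 : P (τ s (i - 1) (y0 - 1)) := hPL _ _ _ _ k2 a2 h2 (by omega) p2
      have hSA := SA_τ (s := s) (x := i - 1) (h := y0 - 1)
      rw [sub_add_cancel] at hSA
      obtain ⟨m1, hm1⟩ := hT (τ s i (y0 - 1))
      obtain ⟨m2, hm2⟩ := hT (τ s (i - 1) (y0 - 1))
      replace hm1 := hm1 ⟨_, _, rfl⟩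
      replace hm2 := hm2 ⟨_, _, rfl⟩
      have hmid : Ch {l | (∃ x h, l = τ s x h ∧ KB bot Hl i y0 r x h) ∧ P l}
          (τ s (i - 1) (y0 - 1)) (τ s i (y0 - 1)) :=
        Ch.single hSA ⟨⟨_, _, rfl, a2⟩, q2⟩ ⟨⟨_, _, rfl, a1⟩, q1⟩
      have c1 := hR _ _ _ _ k1 a1 h1 le_rfl p1 p m1 t1 hm1
      have c2 := hCh _ _ m1 m2 hmid.symm ⟨_, _, rfl, a1⟩ q1 hm1 hm2
      have c3 := hL _ _ _ _ a2 k2 (by omega) h2 q2 m2 q hm2 t2
      exact hQt _ _ _ c1 (hQt _ _ _ c2 c3)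
    · have q1 := hPR _ _ _ _ k1 a1 h1 a2 p1
      have q2 := hPL _ _ _ _ k2 a3 h2 a4 p2
      obtain ⟨m, hm1, hm2⟩ := hopp x1 c1 x2 c2 a1 a3 a5 q1 q2
      exact hQt _ _ _ (hR _ _ _ _ k1 a1 h1 a2 p1 p m t1 hm1)
        (hL _ _ _ _ a3 k2 a4 h2 q2 m q hm2 t2)
  obtain ⟨x, h, rfl, k1⟩ := k1
  obtain ⟨x', h', rfl, k2⟩ := k2
  rcases lt_or_ge x i with c1 | c1 <;> rcases lt_or_ge x' i with c2 | c2
  · exact hL _ _ _ _ k1 k2 c1 c2 p1 p q t1 t2
  · exact hQs _ _ (hRL _ _ _ _ k2 k1 c2 c1 p2 p1 q p t2 t1)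
  · exact hRL _ _ _ _ k1 k2 c1 c2 p1 p2 p q t1 t2
  · exact hR _ _ _ _ k1 k2 c1 c2 p1 p q t1 t2

end Pool.Agent.H92.W
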