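import Mathlib
import Pool.Agent.H92.W.BankD
import Pool.Agent.H92.W.Corner

set_option autoImplicit false
open Finset

/-! # ONE-ROW: the corner zones of a bank, third part -/

namespace Pool.Agent.H92.W

open Pool.Agent.H75.Perc Pool.Agent.H75.TwoArm Pool.Agent.Q1 Pool.Agent.H33.Q1 H80.W
open Pool.Agent.H35.W (Nat1)
open Pool.Agent.H60.Q1 (Near Far)
open Pool.Agent.H58.W (up mem_up up_subset)

variable {s : Bool} {x h x' h' i y0 r xs xe R : ℤ} {bot pc : ℤ → ℤ} {Hl : ℤ → ℤ → Prop} {e v : ℤ × ℤ}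
  {γ : Type*} [DecidableEq γ] {Λ D : Set (ℤ × ℤ)} {E F : Finset (ℤ × ℤ)} {b : ℤ × ℤ → γ}
  {c : Finset (ℤ × ℤ) → Finset (ℤ × ℤ)} {u : ℤ × ℤ → ℤ × ℤ} {J : Finset ℤ}

/-- height of the wall on the side `x ≥ i` (`d = true`) or `x < i` -/
def y0B (bot : ℤ → ℤ) (i : ℤ) (d : Bool) : ℤ := if d then bot i else bot (i - 1)

/-- the side -/
def sideB (i r1 : ℤ) (d : Bool) (x : ℤ) : Prop :=
  if d then i ≤ x ∧ x < i + r1 else i - r1 ≤ x ∧ x < i

open Classical in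
/-- forced tiles near the corner on one side of it -/
noncomputable def FcB (s : Bool) (F : Finset (ℤ × ℤ)) (bot : ℤ → ℤ) (xs xe i r1 : ℤ) (d : Bool) :
    Finset (ℤ × ℤ) :=
  F.filter (fun e => ∃ x, (xs ≤ x ∧ x < xe) ∧ sideB i r1 d x ∧ τ s x (bot x) = e)

lemma mem_FcB {r1 : ℤ} {d : Bool} : e ∈ FcB s F bot xs xe i r1 d ↔
    e ∈ F ∧ ∃ x, (xs ≤ x ∧ x < xe) ∧ sideB i r1 d x ∧ τ s x (bot x) = e := by
  classical
  unfold FcB
  rw [mem_filter]

/-- **the corner zone of a bank** -/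
theorem corner_bank (hB : Bank s Λ D E b c F u xs xe R bot pc Hl J) (hi : i ∈ J)
    {d : Bool} {r1 M : ℤ} (h1 : 1 ≤ r1) (hr1 : r1 ≤ r) (hM : 2 * M + 3 ≤ r) (hr2 : 2 ≤ r)
    (hr : 2 * r + r1 + 2 ≤ R) (hne : (FcB s F bot xs xe i r1 d).Nonempty) :
    (∀ ω : Finset γ, Corner F u (ZC s bot Hl i (y0B bot i d) r) (NC s bot i (y0B bot i d) r)
      (FcB s F bot xs xe i r1 d) (ctr s i (y0B bot i d)) (r1 + 1) M (c (up E b ω))) ∧
    Nat1 E b (NC s bot i (y0B bot i d) r) ∧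
    (∀ ω ⊆ E, c ω ∩ NC s bot i (y0B bot i d) r = ω ∩ NC s bot i (y0B bot i d) r) ∧
    (∀ ω : Finset γ, Conn (ZC s bot Hl i (y0B bot i d) r) (NC s bot i (y0B bot i d) r)
      (c (up E b ω))) ∧
    ∀ e ∈ ZC s bot Hl i (y0B bot i d) r, e ∈ Λ ∧ e ∉ D := by
  obtain ⟨e0, he0⟩ := hne
  obtain ⟨-, x0, ⟨a1, a2⟩, a3, -⟩ := mem_FcB.1 he0
  have hx0 : |x0 - i| ≤ r1 := by
    unfold sideB at a3
    rw [abs_le]
    split_ifs at a3 <;> omega
  have hRt : ∀ x, i ≤ x → x ≤ i + r → bot x = bot i ∧ pc x = pc i :=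
    fun x k1 k2 => hB.right' hi a1 a2 hx0 (by omega) k1 k2
  have hLt : ∀ x, x < i → i - 1 - r ≤ x → bot x = bot (i - 1) ∧ pc x = pc (i - 1) :=
    fun x k1 k2 => hB.left' hi a1 a2 hx0 (by omega) k1 k2
  set y0 := y0B bot i d with hy0
  have hside : ∀ x, sideB i r1 d x → bot x = y0 ∧ |x - i| ≤ r1 := by
    intro x hx
    unfold sideB at hx
    rw [hy0]
    unfold y0B
    rw [abs_le]
    cases d
    · simp only [Bool.false_eq_true, if_false] at hx ⊢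
      exact ⟨(hLt x hx.2 (by omega)).1, by omega⟩
    · simp only [if_true] at hx ⊢
      exact ⟨(hRt x hx.1 (by omega)).1, by omega⟩
  have bx0 := (hside x0 a3).1
  have hy : y0 = bot (i - 1) ∨ y0 = bot i := by
    rw [hy0]
    unfold y0B
    cases d
    · exact Or.inl rfl
    · exact Or.inr rfl
  have hjump := hB.jump i hi
  have hwin : ∀ x h, BoxC i y0 r x h → Wdw xs xe R bot x h := by
    intro x h k1
    unfold BoxC at k1
    rw [abs_le] at hx0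
    refine ⟨x0, a1, a2, ?_, ?_⟩ <;> rw [abs_le] <;> omega
  have hH : LB bot Hl i y0 r (bot (i - 1)) (bot i) :=
    ⟨by omega, fun x k1 k2 => (hRt x k1 k2).1, fun x k1 k2 => (hLt x k1 k2).1, hy, by omega,
      fun x h k1 k2 => hB.hol x h (hwin x h k1) k2⟩
  -- in the box
  have hbot : ∀ x, i - r ≤ x → x < i + r → y0 - r ≤ bot x → bot x ≤ y0 + r → bot x = y0 := by
    intro x k1 k2 k3 k4
    rcases lt_or_ge x i with k5 | k5
    · have := (hLt x k5 (by omega)).1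
      omega
    · have := (hRt x k5 (by omega)).1
      omega
  have hnat : ∀ e ∈ NC s bot i y0 r, e ∈ Λ ∧ e ∉ D ∧ e ∈ E ∧ (∀ l ∈ E, b l = b e → l = e) ∧
      ∀ ω ⊆ E, (e ∈ c ω ↔ e ∈ ω) := by
    intro e he
    obtain ⟨x, h, rfl, k1, k2⟩ := mem_NC'.1 he
    exact hB.nat x h (hwin x h k1) k2
  -- a tile of `F` in the zone
  have hF : ∀ f ∈ F, f ∈ ZC s bot Hl i y0 r → ∃ x, f = τ s x (bot x) ∧ BoxC i y0 r x (bot x) ∧
      u f = τ s x (bot x - 1) ∧ bot x = y0 := by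
    intro f hf hfZ
    obtain ⟨x, h, rfl, k1, k2⟩ := mem_ZC'.1 hfZ
    have hT : Tch bot x h := by
      rcases k2 with k2 | k2
      · exact Tch.of (by omega)
      · exact k2.2.1
    obtain ⟨rfl, k3⟩ := hB.row x h (hwin x h k1) hT hf
    refine ⟨x, rfl, k1, by rw [k3, τ_pred], ?_⟩
    unfold BoxC at k1
    exact hbot x k1.1.1 k1.1.2 (by omega) (by omega)
  -- the wall tile under a forced tile
  have hwl : ∀ x, BoxC i y0 r x (bot x) → bot x = y0 → KB bot Hl i y0 r x (bot x - 1) := by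
    intro x k1 k2
    have hbox : BoxC i y0 r x (bot x - 1) := by unfold BoxC at *; omega
    refine ⟨hbox, by omega, Tch.of (by omega), fun k3 => ?_⟩
    have := (hH.hol x _ hbox k3).1
    omega
  -- states of the walls
  have hsame : ∀ ω : Finset γ, ∀ x h x' h', KB bot Hl i y0 r x h → KB bot Hl i y0 r x' h' →
      pc x = pc x' → (τ s x h ∈ c (up E b ω) ↔ τ s x' h' ∈ c (up E b ω)) := by
    intro ω x h x' h' k1 k2 k3
    exact hB.col x h x' h' (hwin x h k1.1) k1.2 (hwin x' h' k2.1) k2.2 k3 ω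
  have hR' : ∀ ω : Finset γ, ∀ x h x' h', KB bot Hl i y0 r x h → KB bot Hl i y0 r x' h' →
      i ≤ x → i ≤ x' → (τ s x h ∈ c (up E b ω) ↔ τ s x' h' ∈ c (up E b ω)) := by
    intro ω x h x' h' k1 k2 k3 k4
    have b1 := k1.1
    have b2 := k2.1
    unfold BoxC at b1 b2
    exact hsame ω x h x' h' k1 k2 (((hRt x k3 (by omega)).2).trans ((hRt x' k4 (by omega)).2).symm)
  have hL' : ∀ ω : Finset γ, ∀ x h x' h', KB bot Hl i y0 r x h → KB bot Hl i y0 r x' h' →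
      x < i → x' < i → (τ s x h ∈ c (up E b ω) ↔ τ s x' h' ∈ c (up E b ω)) := by
    intro ω x h x' h' k1 k2 k3 k4
    have b1 := k1.1
    have b2 := k2.1
    unfold BoxC at b1 b2
    exact hsame ω x h x' h' k1 k2 (((hLt x k3 (by omega)).2).trans ((hLt x' k4 (by omega)).2).symm)
  -- the two walls at a hole, `(x', h)` below the room tile, `(x, h + 1)`
  have hcor : ∀ ω : Finset γ, ∀ x h x', Hl x h → BoxC i y0 r x h → |x' - x| ≤ 1 →
      bot x' = h + 1 →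
      (τ s x' h ∈ c (up E b ω) → τ s x (h + 1) ∈ c (up E b ω) →
        ∃ v, EndV (τ s x' h) v ∧ EndV (τ s x (h + 1)) v) ∧
      (τ s x' h ∉ c (up E b ω) → τ s x (h + 1) ∉ c (up E b ω) →
        ∃ v, EndF (τ s x' h) v ∧ EndF (τ s x (h + 1)) v) := by
    intro ω x h x' k1 k2 k3 k4
    have k5 := (hH.hol x h k2 k1).1
    have hx : x' = x + 1 ∨ x' = x - 1 := by
      have : x' ≠ x := by rintro rfl; omega
      rw [abs_le] at k3
      omega
    constructor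
    · intro o1 o2
      rcases diag_pt (s := s) (x := x) (h := h) hx with ⟨v, v1, v2⟩ | ⟨v, v1, v2⟩
      · obtain ⟨v3, v4⟩ := diag_V v2 v1
        exact ⟨v, v3, v4⟩
      · rcases hB.hcF x h x' v (hwin _ _ k2) k1 k3 k4 v1 v2 ω with h | h
        · exact absurd o1 h
        · exact absurd o2 h
    · intro o1 o2
      rcases diag_pt (s := s) (x := x) (h := h) hx with ⟨v, v1, v2⟩ | ⟨v, v1, v2⟩
      · rcases hB.hcV x h x' v (hwin _ _ k2) k1 k3 k4 v1 v2 ω with h | h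
        · exact absurd h o1
        · exact absurd h o2
      · obtain ⟨v3, v4⟩ := diag_F v2 v1
        exact ⟨v, v3, v4⟩
  -- natural tiles and holes
  have hfar : ∀ x h x' h', BoxC i y0 r x h → bot x ≤ h → |x' - x| ≤ 1 → |h' - h| ≤ 1 →
      τ s x' h' ∉ ZC s bot Hl i y0 r → BoxC i y0 r x' h' →
      Hl x' h' ∧ h = h' + 1 ∧ bot x = h' + 1 ∧ |x - x'| ≤ 1 ∧ KB bot Hl i y0 r x h' ∧
        KB bot Hl i y0 r x' h := by
    intro x h x' h' k1 k2 k3 k4 k5 k6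
    rw [abs_le] at k3 k4
    have hx : |x - x'| ≤ 1 := by rw [abs_le]; omega
    have hT : Tch bot x' h' := ⟨x, hx, by omega⟩
    rw [mem_ZC] at k5
    have k7 : ¬ (bot x' ≤ h' ∨ Wall bot Hl x' h') := fun hh => k5 ⟨k6, hh⟩
    rw [not_or] at k7
    have k8 : Hl x' h' := by
      by_contra hcon
      exact k7.2 ⟨by omega, hT, hcon⟩
    obtain ⟨k9, k10⟩ := hH.hol x' h' k6 k8
    have k11 := k10 x hx
    have e1 : h = h' + 1 := by omega
    have e2 : bot x = h' + 1 := by omega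
    have hbx : BoxC i y0 r x h' := by unfold BoxC at *; omega
    have hbx' : BoxC i y0 r x' h := by unfold BoxC at *; omega
    refine ⟨k8, e1, e2, hx, ⟨hbx, by omega, Tch.of (by omega), fun k12 => ?_⟩,
      ⟨hbx', by omega, ⟨x, hx, by omega⟩, fun k12 => ?_⟩⟩
    · have := (hH.hol x h' hbx k12).1
      omega
    · have := (hH.hol x' h hbx' k12).2 x hx
      omega
  refine ⟨fun ω => ⟨⟨?_, ZF_of_col (ZC_col hH.hol), ZV_of_col (ZC_col hH.hol), ?_, ?_, ?_, ?_, ?_⟩,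
    ?_, ?_, ?_, ?_, ?_, ?_, ?_⟩, ⟨fun e he => (hnat e he).2.2.1, ?_⟩, ?_, ?_, ?_⟩
  · -- sub
    intro e he
    obtain ⟨x, h, rfl, k1, k2⟩ := mem_NC'.1 he
    exact mem_ZC.2 ⟨k1, Or.inl k2⟩
  · -- nat
    intro f hf hfZ
    obtain ⟨x, rfl, k1, -⟩ := hF f hf hfZ
    exact mem_NC.2 ⟨k1, le_rfl⟩
  · intro f hf hfZ
    obtain ⟨x, rfl, -⟩ := hF f hf hfZ
    exact τ_odd
  · intro f hf hfZ
    obtain ⟨x, k0, -, k1, -⟩ := hF f hf hfZ
    rw [k1, k0]
    exact SA_τ'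
  · intro f hf hfZ
    obtain ⟨x, -, k2, k1, k3⟩ := hF f hf hfZ
    rw [k1, mem_ZC]
    exact ⟨(hwl x k2 k3).1, Or.inr (hwl x k2 k3).2⟩
  · intro f hf hfZ
    obtain ⟨x, -, -, k1, -⟩ := hF f hf hfZ
    rw [k1, mem_NC]
    omega
  · -- inF
    intro e he
    exact (mem_FcB.1 he).1
  · -- inZ
    intro e he
    obtain ⟨-, x, k1, k2, rfl⟩ := mem_FcB.1 he
    obtain ⟨k3, k4⟩ := hside x k2
    rw [mem_ZC]
    refine ⟨?_, Or.inl le_rfl⟩
    unfold BoxC
    unfold sideB at k2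
    split_ifs at k2 <;> omega
  · intro e he v hv
    obtain ⟨-, x, k1, k2, rfl⟩ := mem_FcB.1 he
    obtain ⟨k3, k4⟩ := hside x k2
    rw [k3] at hv
    exact near_V h1 k4 hv
  · intro e he v hv
    obtain ⟨-, x, k1, k2, rfl⟩ := mem_FcB.1 he
    obtain ⟨k3, k4⟩ := hside x k2
    rw [k3] at hv
    exact near_F h1 k4 hv
  · -- farV
    intro l hl v hv hout
    obtain ⟨x, h, rfl, k1, k2⟩ := mem_NC'.1 hl
    obtain ⟨e', he', he''⟩ := outV_iff.1 hout
    obtain ⟨x', h', rfl⟩ := exists_τ s he'.odd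
    obtain ⟨k4, k5⟩ := nbr_V hv he'
    by_cases k6 : BoxC i y0 r x' h'
    · right
      obtain ⟨k7, e1, e2, k8, k9, k10⟩ := hfar x h x' h' k1 k2 k4 k5 he'' k6
      subst e1
      obtain ⟨v1, v2⟩ := diag_V hv he'
      rcases hB.hcV x' h' x v (hwin _ _ k6) k7 k8 e2 he' hv ω with hop | hop
      · obtain ⟨w1, w2⟩ := wall_iff.2 ⟨x, h', rfl, k9⟩
        exact ⟨_, w1, w2, hop, v1⟩
      · obtain ⟨w1, w2⟩ := wall_iff.2 ⟨x', h' + 1, rfl, k10⟩
        exact ⟨_, w1, w2, hop, v2⟩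
    · exact Or.inl (far_V hM k6 he')
  · intro l hl v hv hout
    obtain ⟨x, h, rfl, k1, k2⟩ := mem_NC'.1 hl
    obtain ⟨e', he', he''⟩ := outF_iff.1 hout
    obtain ⟨x', h', rfl⟩ := exists_τ s he'.odd
    obtain ⟨k4, k5⟩ := nbr_F hv he'
    by_cases k6 : BoxC i y0 r x' h'
    · right
      obtain ⟨k7, e1, e2, k8, k9, k10⟩ := hfar x h x' h' k1 k2 k4 k5 he'' k6
      subst e1
      obtain ⟨v1, v2⟩ := diag_F hv he'
      rcases hB.hcF x' h' x v (hwin _ _ k6) k7 k8 e2 he' hv ω with hop | hop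
      · obtain ⟨w1, w2⟩ := wall_iff.2 ⟨x, h', rfl, k9⟩
        exact ⟨_, w1, w2, hop, v1⟩
      · obtain ⟨w1, w2⟩ := wall_iff.2 ⟨x', h' + 1, rfl, k10⟩
        exact ⟨_, w1, w2, hop, v2⟩
    · exact Or.inl (far_F hM k6 he')
  · intro l hl
    obtain ⟨x, h, rfl, -⟩ := mem_NC'.1 hl
    exact τ_odd
  · -- own coin
    intro l hl l' hl' hb
    exact (hnat l' hl').2.2.2.1 l (hnat l hl).2.2.1 hb
  · -- the configuration
    intro ω hω
    ext l
    rw [mem_inter, mem_inter]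
    constructor
    · rintro ⟨k1, k2⟩
      exact ⟨((hnat l k2).2.2.2.2 ω hω).1 k1, k2⟩
    · rintro ⟨k1, k2⟩
      exact ⟨((hnat l k2).2.2.2.2 ω hω).2 k1, k2⟩
  · -- Conn
    intro ω
    have hev : ∀ l : ℤ × ℤ, ∃ p, (∃ x h, l = τ s x h) → EndV l p := by
      intro l
      by_cases hl : ∃ x h, l = τ s x h
      · obtain ⟨x, h, rfl⟩ := hl
        obtain ⟨p, hp, -⟩ := (SA_τ (s := s) (x := x) (h := h)).endV τ_odd
        exact ⟨p, fun _ => hp⟩
      · exact ⟨l, fun h => absurd h hl⟩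
    have hef : ∀ l : ℤ × ℤ, ∃ p, (∃ x h, l = τ s x h) → EndF l p := by
      intro l
      by_cases hl : ∃ x h, l = τ s x h
      · obtain ⟨x, h, rfl⟩ := hl
        obtain ⟨p, hp, -⟩ := (SA_τ (s := s) (x := x) (h := h)).endF τ_odd
        exact ⟨p, fun _ => hp⟩
      · exact ⟨l, fun h => absurd h hl⟩
    constructor
    · rintro p q ⟨l, c1, c2, c3, c4⟩ ⟨l', c5, c6, c7, c8⟩
      refine hH.conn hr2 (P := fun l => l ∈ c (up E b ω)) (T := EndV)
        (fun x h x' h' a b c d => (hR' ω x h x' h' a b c d).1)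
        (fun x h x' h' a b c d => (hL' ω x h x' h' a b c d).1) ?_
        (fun p q r h1 h2 => h1.trans h2) (fun p q h => h.symm) hev ?_
        (wall_iff.1 ⟨c1, c2⟩) (wall_iff.1 ⟨c5, c6⟩) c3 c7 c4 c8
      · rintro x1 h1 x2 h2 - - ⟨k0, ⟨k1, k2, k3, k4⟩ | ⟨k1, k2, k3, k4⟩⟩ o1 o2
        · subst k3
          exact (hcor ω x2 h1 x1 k1 k2 k0 k4).1 o1 o2
        · subst k3
          obtain ⟨v, v1, v2⟩ := (hcor ω x1 h2 x2 k1 k2 (by rw [abs_sub_comm]; exact k0) k4).1 o2 o1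
          exact ⟨v, v2, v1⟩
      · intro l l' p q hch hl hPl t1 t2
        have hmem : ∀ l, (∃ x h, l = τ s x h ∧ KB bot Hl i y0 r x h) → l ∈ c (up E b ω) →
            l ∈ c (up E b ω) ∩ (ZC s bot Hl i y0 r \ NC s bot i y0 r) := by
          intro l m1 m2
          exact mem_inter.2 ⟨m2, mem_sdiff.2 (wall_iff.2 m1)⟩
        exact hch.co (hmem l hl hPl) (fun l m => hmem l m.1 m.2) t1 t2
    · rintro p q ⟨l, c1, c2, c3, c4⟩ ⟨l', c5, c6, c7, c8⟩
      refine hH.conn hr2 (P := fun l => l ∉ c (up E b ω)) (T := EndF)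
        (fun x h x' h' a b c d => mt (hR' ω x h x' h' a b c d).2)
        (fun x h x' h' a b c d => mt (hL' ω x h x' h' a b c d).2) ?_
        (fun p q r h1 h2 => h1.trans h2) (fun p q h => h.symm) hef ?_
        (wall_iff.1 ⟨c1, c2⟩) (wall_iff.1 ⟨c5, c6⟩) c3 c7 c4 c8
      · rintro x1 h1 x2 h2 - - ⟨k0, ⟨k1, k2, k3, k4⟩ | ⟨k1, k2, k3, k4⟩⟩ o1 o2
        · subst k3
          exact (hcor ω x2 h1 x1 k1 k2 k0 k4).2 o1 o2
        · subst k3
          obtain ⟨v, v1, v2⟩ := (hcor ω x1 h2 x2 k1 k2 (by rw [abs_sub_comm]; exact k0) k4).2 o2 o1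
          exact ⟨v, v2, v1⟩
      · intro l l' p q hch hl hPl t1 t2
        have hmem : ∀ l, (∃ x h, l = τ s x h ∧ KB bot Hl i y0 r x h) → l ∉ c (up E b ω) →
            l ∈ ZC s bot Hl i y0 r \ NC s bot i y0 r ∧ l ∉ c (up E b ω) := by
          intro l m1 m2
          exact ⟨mem_sdiff.2 (wall_iff.2 m1), m2⟩
        exact hch.cof (hmem l hl hPl) (fun l m => hmem l m.1 m.2) t1 t2
  · -- labels of the world
    intro e he
    obtain ⟨x, h, rfl, k1, k2⟩ := mem_ZC'.1 he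
    rcases k2 with k2 | k2
    · exact ⟨(hB.nat x h (hwin x h k1) k2).1, (hB.nat x h (hwin x h k1) k2).2.1⟩
    · exact hB.wal x h (hwin x h k1) k2

end Pool.Agent.H92.W
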