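import Mathlib
import Pool.Agent.H92.W.BankD
import Pool.Agent.H92.W.Corner

set_option autoImplicit false
open Finset

/-! # ONE-ROW: the flat tiles of a bank -/

namespace Pool.Agent.H92.W

open Pool.Agent.H75.Perc hiding dl
open Pool.Agent.H75.TwoArm Pool.Agent.Q1 Pool.Agent.H33.Q1 H80.W
open Pool.Agent.H35.W
open Pool.Agent.H60.Q1 (Near Far)
open Pool.Agent.H58.W (PB up mem_up up_subset PB_congr)

variable {s : Bool} {x h x' h' xs xe R T t : ℤ} {bot pc : ℤ → ℤ} {Hl : ℤ → ℤ → Prop}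
  {γ : Type*} [DecidableEq γ] {Λ D : Set (ℤ × ℤ)} {E F : Finset (ℤ × ℤ)} {b : ℤ × ℤ → γ}
  {c : Finset (ℤ × ℤ) → Finset (ℤ × ℤ)} {u : ℤ × ℤ → ℤ × ℤ} {J : Finset ℤ} {β : Type*}
  {Φ : Finset (ℤ × ℤ) → β}

lemma dg_nB : Dg (nB s) := by
  unfold Dg nB
  cases s <;> simp

lemma hn_τ : hn (nB s) (τ s x h) = 2 * h + 1 := by
  unfold hn nB τ lt
  cases s <;> simp <;> ring

lemma ln_τ : ln (nB s) (τ s x h) = if s then -2 * x - 1 else 2 * x + 1 := by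
  unfold ln nB τ lt
  cases s <;> simp <;> ring

lemma mem_RZτ : τ s x' h' ∈ RZ (nB s) (τ s x h) T ↔
    (h - 1 ≤ h' ∧ h' ≤ h + T) ∧ (x - T ≤ x' ∧ x' ≤ x + T) := by
  rw [mem_RZ dg_nB τ_odd, hn_τ, hn_τ, ln_τ, ln_τ]
  have := τ_odd (s := s) (x := x') (h := h')
  cases s <;> simp only [if_true, if_false, Bool.false_eq_true] <;> constructor <;> intro h <;>
    refine ⟨?_, ?_⟩ <;> omega

/-- no change near a flat column -/
lemma Bank.flat (hB : Bank s Λ D E b c F u xs xe R bot pc Hl J) (h1 : xs ≤ x) (h2 : x < xe)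
    (hT : T + 1 ≤ R) (hJ : ∀ j ∈ J, T + 1 ≤ |x - j|) (n : ℕ) (hn : (n : ℤ) ≤ T) :
    (bot (x + n) = bot x ∧ pc (x + n) = pc x) ∧ (bot (x - n) = bot x ∧ pc (x - n) = pc x) := by
  induction n with
  | zero => simp
  | succ n ih =>
    obtain ⟨⟨i1, i2⟩, i3, i4⟩ := ih (by push_cast at hn; omega)
    push_cast at hn ⊢
    have h5 := hB.cst (x + (n + 1)) (by omega) (by omega) (by
      intro h6
      have := hJ _ h6
      rw [le_abs] at this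
      omega)
    have h6 := hB.cst (x - n) (by omega) (by omega) (by
      intro h6
      have := hJ _ h6
      rw [le_abs] at this
      omega)
    have e1 : x + ((n : ℤ) + 1) - 1 = x + n := by ring
    have e2 : x - ((n : ℤ) + 1) = x - n - 1 := by ring
    rw [e1] at h5
    rw [e2]
    exact ⟨⟨h5.1.symm.trans i1, h5.2.symm.trans i2⟩, h6.1.trans i3, h6.2.trans i4⟩

lemma Bank.flat' (hB : Bank s Λ D E b c F u xs xe R bot pc Hl J) (h1 : xs ≤ x) (h2 : x < xe)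
    (hT : T + 1 ≤ R) (hJ : ∀ j ∈ J, T + 1 ≤ |x - j|) (h3 : x - T ≤ x') (h4 : x' ≤ x + T) :
    bot x' = bot x ∧ pc x' = pc x := by
  rcases le_total x x' with h5 | h5
  · have h6 := (hB.flat h1 h2 hT hJ (x' - x).toNat (by omega)).1
    have e1 : x + ((x' - x).toNat : ℤ) = x' := by omega
    rwa [e1] at h6
  · have h6 := (hB.flat h1 h2 hT hJ (x - x').toNat (by omega)).2
    have e1 : x - ((x - x').toNat : ℤ) = x' := by omega
    rwa [e1] at h6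

lemma badf_congr {n e : ℤ × ℤ} {w w' : Finset (ℤ × ℤ)} (hd : Dg n) (he : Od e)
    (ht : 4 * t + 1 ≤ 2 * T) (h : w ∩ NZ n e T = w' ∩ NZ n e T) :
    Pool.Agent.H35.W.BadF n e T t w ↔ Pool.Agent.H35.W.BadF n e T t w' := by
  have hl : ∀ l ∈ NZ n e T, (l ∈ w ↔ l ∈ w') := by
    intro l hl
    have h3 := congrArg (fun q => l ∈ q) h
    simp only [mem_inter, hl, and_true, eq_iff_iff] at h3
    exact h3
  unfold Pool.Agent.H35.W.BadF
  refine or_congr (bd_congr ?_) (bd_congr ?_)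
  · ext l
    rw [mem_inter, mem_inter]
    constructor
    · rintro ⟨h1, h2⟩
      exact ⟨(hl l (HN_NZ hd he ht h2)).1 h1, h2⟩
    · rintro ⟨h1, h2⟩
      exact ⟨(hl l (HN_NZ hd he ht h2)).2 h1, h2⟩
  · ext l
    rw [mem_inter, mem_inter, mem_du_iff', mem_du_iff']
    have hk : l ∈ HN n (lo n (dl e)) t → l - (1, 1) ∈ NZ n e T := by
      intro h2
      have h3 := HN_NZ hd (od_dl he) ht h2
      rwa [← NZ_dl hd he, mem_map_sh1] at h3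
    constructor
    · rintro ⟨⟨h1, h1'⟩, h2⟩
      exact ⟨⟨h1, fun h4 => h1' ((hl _ (hk h2)).2 h4)⟩, h2⟩
    · rintro ⟨⟨h1, h1'⟩, h2⟩
      exact ⟨⟨h1, fun h4 => h1' ((hl _ (hk h2)).1 h4)⟩, h2⟩

/-- **a flat tile of a bank** -/
theorem flat_bank (hB : Bank s Λ D E b c F u xs xe R bot pc Hl J) (h1 : xs ≤ x) (h2 : x < xe)
    (hT : T + 1 ≤ R) (hJ : ∀ j ∈ J, T + 1 ≤ |x - j|) (ht1 : 1 ≤ t) (ht : 4 * t + 1 ≤ 2 * T)
    (hinv : ∀ Z : Finset (ℤ × ℤ), (∀ e ∈ Z, e ∈ Λ ∧ e ∉ D) → PatInv Z Φ) :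
    Nat1 E b (NZ (nB s) (τ s x (bot x)) T) ∧
    (∀ ω ⊆ E, c ω ∩ NZ (nB s) (τ s x (bot x)) T = ω ∩ NZ (nB s) (τ s x (bot x)) T) ∧
    ∀ ω : Finset γ, τ s x (bot x) ∈ F → ¬ Pool.Agent.H35.W.BadF (nB s) (τ s x (bot x)) T t (c (up E b ω)) →
      StepOK Φ F u (c (up E b ω)) (τ s x (bot x)) := by
  have hfl : ∀ x', x - T ≤ x' → x' ≤ x + T → bot x' = bot x ∧ pc x' = pc x :=
    fun x' k1 k2 => hB.flat' h1 h2 hT hJ k1 k2
  have hwin : ∀ x' h', (bot x - 1 ≤ h' ∧ h' ≤ bot x + T) → (x - T ≤ x' ∧ x' ≤ x + T) →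
      Wdw xs xe R bot x' h' := by
    intro x' h' k1 k2
    refine ⟨x, h1, h2, ?_, ?_⟩ <;> rw [abs_le] <;> omega
  have hwall : ∀ x', x - T ≤ x' → x' ≤ x + T → Wdw xs xe R bot x' (bot x - 1) ∧
      Wall bot Hl x' (bot x - 1) := by
    intro x' k1 k2
    have k3 := hwin x' (bot x - 1) (by omega) ⟨k1, k2⟩
    have k4 := (hfl x' k1 k2).1
    refine ⟨k3, by omega, ⟨x', by simp, by omega⟩, fun k5 => ?_⟩
    have := (hB.hol x' _ k3 k5).1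
    omega
  have hnat : ∀ l ∈ NZ (nB s) (τ s x (bot x)) T, l ∈ Λ ∧ l ∉ D ∧ l ∈ E ∧
      (∀ l' ∈ E, b l' = b l → l' = l) ∧ ∀ ω ⊆ E, (l ∈ c ω ↔ l ∈ ω) := by
    intro l hl
    unfold NZ at hl
    rw [mem_filter] at hl
    obtain ⟨x', h', rfl⟩ := exists_τ s (RZ_odd l hl.1)
    rw [mem_RZτ, hn_τ, hn_τ] at hl
    have k4 := (hfl x' hl.1.2.1 hl.1.2.2).1
    exact hB.nat x' h' (hwin x' h' hl.1.1 hl.1.2) (by omega)
  have hRZ : ∀ l ∈ RZ (nB s) (τ s x (bot x)) T, l ∈ Λ ∧ l ∉ D := by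
    intro l hl
    by_cases h3 : hn (nB s) (τ s x (bot x)) ≤ hn (nB s) l
    · have h4 : l ∈ NZ (nB s) (τ s x (bot x)) T := by
        unfold NZ
        exact mem_filter.2 ⟨hl, h3⟩
      exact ⟨(hnat l h4).1, (hnat l h4).2.1⟩
    · obtain ⟨x', h', rfl⟩ := exists_τ s (RZ_odd l hl)
      rw [mem_RZτ] at hl
      rw [hn_τ, hn_τ] at h3
      have e1 : h' = bot x - 1 := by omega
      subst e1
      obtain ⟨k1, k2⟩ := hwall x' hl.2.1 hl.2.2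
      exact hB.wal x' _ k1 k2
  refine ⟨⟨fun l hl => (hnat l hl).2.2.1, fun l hl l' hl' hb =>
    (hnat l' hl').2.2.2.1 l (hnat l hl).2.2.1 hb⟩, fun ω hω => ?_, fun ω heF hbad => ?_⟩
  · ext l
    rw [mem_inter, mem_inter]
    constructor
    · rintro ⟨k1, k2⟩
      exact ⟨((hnat l k2).2.2.2.2 ω hω).1 k1, k2⟩
    · rintro ⟨k1, k2⟩
      exact ⟨((hnat l k2).2.2.2.2 ω hω).2 k1, k2⟩
  · unfold Pool.Agent.H35.W.BadF at hbad
    rw [not_or] at hbad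
    have hrow : ∀ f ∈ F, f ∈ RZ (nB s) (τ s x (bot x)) T →
        hn (nB s) f = hn (nB s) (τ s x (bot x)) ∧ u f = f - nB s := by
      intro f hf hfR
      obtain ⟨x', h', rfl⟩ := exists_τ s (RZ_odd f hfR)
      rw [mem_RZτ] at hfR
      have k4 := (hfl x' hfR.2.1 hfR.2.2).1
      obtain ⟨k5, k6⟩ := hB.row x' h' (hwin x' h' hfR.1 hfR.2) ⟨x', by simp, by omega⟩ hf
      refine ⟨?_, k6⟩
      rw [hn_τ, hn_τ]
      omega
    refine flat_ok ⟨dg_nB, τ_odd, fun f hf hfR => (hrow f hf hfR).1,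
      fun f hf hfR => (hrow f hf hfR).2⟩ heF
      (sees_RZ dg_nB τ_odd (hinv _ hRZ)) ht1 ht ?_ hbad.1 hbad.2
    have hcol : ∀ l ∈ WZ (nB s) (τ s x (bot x)) T, (l ∈ c (up E b ω) ↔
        τ s x (bot x - 1) ∈ c (up E b ω)) := by
      intro l hl
      have hl' := hl
      unfold WZ at hl'
      rw [mem_filter] at hl'
      obtain ⟨x', h', rfl⟩ := exists_τ s (RZ_odd l hl'.1)
      rw [mem_RZτ, hn_τ, hn_τ] at hl'
      have e1 : h' = bot x - 1 := by omega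
      subst e1
      obtain ⟨k1, k2⟩ := hwall x' hl'.1.2.1 hl'.1.2.2
      obtain ⟨k3, k4⟩ := hwall x (by omega) (by omega)
      exact hB.col x' _ x _ k1 k2 k3 k4 (hfl x' hl'.1.2.1 hl'.1.2.2).2 ω
    by_cases hop : τ s x (bot x - 1) ∈ c (up E b ω)
    · left
      exact fun l hl => (hcol l hl).2 hop
    · right
      rw [disjoint_left]
      exact fun l hl hl' => hop ((hcol l hl).1 hl')

/-- **probability that a flat tile is bad** -/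
theorem PB_flat_bank : ∃ C : ℝ, 0 < C ∧ ∀ {γ : Type*} [DecidableEq γ] {β : Type*} {s : Bool}
    {Λ D : Set (ℤ × ℤ)} {E F : Finset (ℤ × ℤ)} {b : ℤ × ℤ → γ}
    {c : Finset (ℤ × ℤ) → Finset (ℤ × ℤ)} {u : ℤ × ℤ → ℤ × ℤ} {xs xe R : ℤ} {bot pc : ℤ → ℤ}
    {Hl : ℤ → ℤ → Prop} {J : Finset ℤ} {Φ : Finset (ℤ × ℤ) → β} {x T t : ℤ},
    Bank s Λ D E b c F u xs xe R bot pc Hl J → xs ≤ x → x < xe → T + 1 ≤ R →
    (∀ j ∈ J, T + 1 ≤ |x - j|) → 1 ≤ t → 4 * t + 1 ≤ 2 * T →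
    (∀ Z : Finset (ℤ × ℤ), (∀ e ∈ Z, e ∈ Λ ∧ e ∉ D) → PatInv Z Φ) →
    PB E b (fun ω => τ s x (bot x) ∈ F ∧ ¬ StepOK Φ F u (c ω) (τ s x (bot x))) ≤
      C / (t : ℝ) ^ 2 := by
  obtain ⟨C, hC, h⟩ := PB_flat
  refine ⟨C, hC, ?_⟩
  intro γ _ β s Λ D E F b c u xs xe R bot pc Hl J Φ x T t hB h1 h2 hT hJ ht1 ht hinv
  obtain ⟨k1, k2, k3⟩ := flat_bank hB h1 h2 hT hJ ht1 ht hinv
  have h3 := h b (nB s) (τ s x (bot x)) T t E ∅ dg_nB τ_odd ht1 ht (disjoint_empty_left E) k1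
  refine le_trans (PB_mono' (B := fun ω => Pool.Agent.H35.W.BadF (nB s) (τ s x (bot x)) T t (c ω)) ?_) ?_
  · rintro ω ⟨h4, h5⟩
    by_contra h6
    exact h5 (k3 ω h4 h6)
  · refine le_of_eq_of_le (PB_congr fun ω hω => ?_) h3
    rw [union_empty]
    exact badf_congr dg_nB τ_odd ht (k2 ω hω)

end Pool.Agent.H92.W
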