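import Mathlib
import Pool.Agent.H92.W.BankE
import Pool.Agent.H92.W.BankF

set_option autoImplicit false
open Finset

/-! # ONE-ROW

`one_bank` : probability that one of the tiles of the forced row of a bank may not be forced.
`one_rows` : forcing one row of tiles along finitely many banks changes a functional of the link patterns with
small probability. `patInv_SGL` : reachability in the strand graph with additional link edges. -/

namespace Pool.Agent.H92.W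

open Pool.Agent.H75.Perc hiding dl
open Pool.Agent.H75.TwoArm Pool.Agent.Q1 Pool.Agent.H33.Q1 H80.W
open Pool.Agent.H35.W (Force StepOK force_all sum_t PB_mono')
open Pool.Agent.H58.W (PB up mem_up up_subset PB_congr PB_or_le PB_exists_le PB_nonneg)
open Pool.Agent.H13.W (SG)

/-! ### Link edges -/

section link

variable {V : Type*} {G G' L : SimpleGraph V} {O : Set V}

lemma reach_sup_aux (hL : ∀ a b, L.Adj a b → a ∈ O ∧ b ∈ O)
    (h : ∀ x ∈ O, ∀ y ∈ O, G.Reachable x y → G'.Reachable x y) {x v : V} (hx : x ∈ O)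
    (hr : (G ⊔ L).Reachable x v) : ∃ a ∈ O, (G' ⊔ L).Reachable x a ∧ G.Reachable a v := by
  obtain ⟨p⟩ := hr
  have key : ∀ (y z : V) (_ : (G ⊔ L).Walk y z), (∃ a ∈ O, (G' ⊔ L).Reachable x a ∧ G.Reachable a y) →
      ∃ a ∈ O, (G' ⊔ L).Reachable x a ∧ G.Reachable a z := by
    intro y z p
    induction p with
    | nil => exact id
    | @cons y y' z ha _ ih =>
      rintro ⟨a, ha1, ha2, ha3⟩
      apply ih
      rcases ha with ha | ha
      · exact ⟨a, ha1, ha2, ha3.trans ha.reachable⟩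
      · obtain ⟨h1, h2⟩ := hL _ _ ha
        refine ⟨y', h2, ?_, SimpleGraph.Reachable.refl _⟩
        refine (ha2.trans ((h a ha1 y h1 ha3).mono le_sup_left)).trans ?_
        have h3 : (G' ⊔ L).Adj y y' := Or.inr ha
        exact h3.reachable
  exact key x v p ⟨x, hx, SimpleGraph.Reachable.refl _, SimpleGraph.Reachable.refl _⟩

/-- link edges between outer points -/
theorem reach_sup (hL : ∀ a b, L.Adj a b → a ∈ O ∧ b ∈ O)
    (h : ∀ x ∈ O, ∀ y ∈ O, (G.Reachable x y ↔ G'.Reachable x y)) {x y : V} (hx : x ∈ O)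
    (hy : y ∈ O) : (G ⊔ L).Reachable x y ↔ (G' ⊔ L).Reachable x y := by
  constructor
  · intro hr
    obtain ⟨a, h1, h2, h3⟩ := reach_sup_aux hL (fun x hx y hy => (h x hx y hy).1) hx hr
    exact h2.trans (((h a h1 y hy).1 h3).mono le_sup_left)
  · intro hr
    obtain ⟨a, h1, h2, h3⟩ := reach_sup_aux hL (fun x hx y hy => (h x hx y hy).2) hx hr
    exact h2.trans (((h a h1 y hy).2 h3).mono le_sup_left)

end link

/-- a corner one of whose tiles is not a natural or wall tile of the world: ends, marks -/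
def OutC (Λ D : Set (ℤ × ℤ)) (x : ℤ × ℤ) : Prop := (lab x ∉ Λ ∨ lab x ∈ D) ∨ (plab x ∉ Λ ∨ plab x ∈ D)

lemma OutC.outer {Λ D : Set (ℤ × ℤ)} {x : ℤ × ℤ} (h : OutC Λ D x) {Z : Finset (ℤ × ℤ)}
    (hZ : ∀ e ∈ Z, e ∈ Λ ∧ e ∉ D) : Outer Z x := by
  rcases h with h | h
  · left
    intro h1
    have := hZ _ h1
    tauto
  · right
    intro h1
    have := hZ _ h1
    tauto

/-- **reachability between ends, with link edges** -/
theorem patInv_SGL {Λ D : Set (ℤ × ℤ)} {ι : Type*} (X : ι → ℤ × ℤ) (L : SimpleGraph (ℤ × ℤ))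
    (hX : ∀ i, OutC Λ D (X i)) (hL : ∀ a b, L.Adj a b → OutC Λ D a ∧ OutC Λ D b)
    (Z : Finset (ℤ × ℤ)) (hZ : ∀ e ∈ Z, e ∈ Λ ∧ e ∉ D) :
    PatInv Z (fun w => fun i j : ι => (SG Λ D w ⊔ L).Reachable (X i) (X j)) := by
  intro w w' h1 h2
  funext i j
  refine propext (reach_sup (O := {x | OutC Λ D x}) hL ?_ (hX i) (hX j))
  intro x hx y hy
  exact reach_iff_of_same hZ (fun e _ h => h1 e h) h2 (hx.outer hZ) (hy.outer hZ)

/-! ### Radii -/

lemma exists_rad (J : Finset ℤ) (x R : ℤ) : ∃ T : ℤ, T + 1 ≤ R ∧ (∀ j ∈ J, T + 1 ≤ |x - j|) ∧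
    (R ≤ T + 1 ∨ ∃ j ∈ J, |x - j| ≤ T + 1) := by
  classical
  induction J using Finset.induction_on with
  | empty => exact ⟨R - 1, by omega, fun j hj => absurd hj (notMem_empty j), Or.inl (by omega)⟩
  | insert a J _ ih =>
    obtain ⟨T, h1, h2, h3⟩ := ih
    rcases le_total (T + 1) |x - a| with h4 | h4
    · refine ⟨T, h1, fun j hj => ?_, ?_⟩
      · rcases mem_insert.1 hj with rfl | hj
        · exact h4
        · exact h2 j hj
      · rcases h3 with h3 | ⟨j, hj, h3⟩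
        · exact Or.inl h3
        · exact Or.inr ⟨j, mem_insert_of_mem hj, h3⟩
    · refine ⟨|x - a| - 1, by omega, fun j hj => ?_, Or.inr ⟨a, mem_insert_self _ _, by omega⟩⟩
      rcases mem_insert.1 hj with rfl | hj
      · omega
      · have := h2 j hj
        omega

/-- the error of one bank -/
noncomputable def eOR (C δ : ℝ) (J : Finset ℤ) (xs xe R : ℤ) (r k : ℕ) : ℝ :=
  C * (J.card : ℝ) / r + C * ((xe - xs).toNat : ℝ) / (R : ℝ) ^ 2 + 4 * (J.card : ℝ) * (1 - δ) ^ k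

/-- **one bank** : the forced tiles of the bank may be forced -/
theorem one_bank : ∃ C δ : ℝ, 0 < C ∧ 0 < δ ∧ δ < 1 ∧ ∀ {γ : Type*} [DecidableEq γ] {β : Type*}
    {s : Bool} {Λ D : Set (ℤ × ℤ)} {E F : Finset (ℤ × ℤ)} {b : ℤ × ℤ → γ}
    {c : Finset (ℤ × ℤ) → Finset (ℤ × ℤ)} {u : ℤ × ℤ → ℤ × ℤ} {xs xe R : ℤ} {bot pc : ℤ → ℤ}
    {Hl : ℤ → ℤ → Prop} {J : Finset ℤ} {Φ : Finset (ℤ × ℤ) → β} (r k : ℕ),
    Bank s Λ D E b c F u xs xe R bot pc Hl J → 4 ≤ r → 16 * 4 ^ k * (r : ℤ) ≤ R →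
    (∀ Z : Finset (ℤ × ℤ), (∀ e ∈ Z, e ∈ Λ ∧ e ∉ D) → PatInv Z Φ) →
    PB E b (fun ω => ∃ x, (xs ≤ x ∧ x < xe) ∧ τ s x (bot x) ∈ F ∧
      ¬ StepOK Φ F u (c ω) (τ s x (bot x))) ≤ eOR C δ J xs xe R r k := by
  classical
  obtain ⟨C0, hC0, hflat⟩ := PB_flat_bank
  obtain ⟨δ, hδ0, hδ1, hcor⟩ := PB_corner
  refine ⟨256 * C0, δ, by positivity, hδ0, hδ1, ?_⟩
  intro γ _ β s Λ D E F b c u xs xe R bot pc Hl J Φ r k hB hr hR hinv
  have h4k : (1 : ℤ) ≤ 4 ^ k := one_le_pow₀ (by norm_num)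
  have hr' : (4 : ℤ) ≤ r := by exact_mod_cast hr
  have hRr : (16 : ℤ) * r ≤ R := by nlinarith
  -- flat and other columns
  set Af : Finset ℤ := (Ico xs xe).filter (fun x => ∀ j ∈ J, x < j - r ∨ j + r ≤ x) with hAf
  set I : Finset (ℤ × Bool) := J ×ˢ univ with hI
  have s1 : PB E b (fun ω => ∃ x, (xs ≤ x ∧ x < xe) ∧ τ s x (bot x) ∈ F ∧
      ¬ StepOK Φ F u (c ω) (τ s x (bot x))) ≤
      PB E b (fun ω => (∃ x ∈ Af, τ s x (bot x) ∈ F ∧ ¬ StepOK Φ F u (c ω) (τ s x (bot x))) ∨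
        ∃ p ∈ I, ∃ e ∈ FcB s F bot xs xe p.1 r p.2, ¬ StepOK Φ F u (c ω) e) := by
    apply PB_mono'
    rintro ω ⟨x, h1, h2, h3⟩
    by_cases hx : ∀ j ∈ J, x < j - r ∨ j + r ≤ x
    · exact Or.inl ⟨x, mem_filter.2 ⟨mem_Ico.2 h1, hx⟩, h2, h3⟩
    · right
      push Not at hx
      obtain ⟨j, hj, h4, h5⟩ := hx
      rcases lt_or_ge x j with h6 | h6
      · refine ⟨(j, false), mem_product.2 ⟨hj, mem_univ _⟩, _, mem_FcB.2 ⟨h2, x, h1, ?_, rfl⟩, h3⟩
        unfold sideB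
        simp only [Bool.false_eq_true, if_false]
        exact ⟨h4, h6⟩
      · refine ⟨(j, true), mem_product.2 ⟨hj, mem_univ _⟩, _, mem_FcB.2 ⟨h2, x, h1, ?_, rfl⟩, h3⟩
        unfold sideB
        simp only [if_true]
        exact ⟨h6, h5⟩
  -- the flat part
  choose T hT1 hT2 hT3 using fun x => exists_rad J x R
  have hTr : ∀ x ∈ Af, (r : ℤ) ≤ T x + 1 := by
    intro x hx
    have h1 := (mem_filter.1 hx).2
    rcases hT3 x with h2 | ⟨j, hj, h2⟩
    · omega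
    · have h3 := h1 j hj
      have h4 : (r : ℤ) ≤ |x - j| := by
        rw [le_abs]
        omega
      omega
  have p1 : PB E b (fun ω => ∃ x ∈ Af, τ s x (bot x) ∈ F ∧
      ¬ StepOK Φ F u (c ω) (τ s x (bot x))) ≤
      256 * C0 * (J.card : ℝ) / r + 256 * C0 * ((xe - xs).toNat : ℝ) / (R : ℝ) ^ 2 := by
    refine (PB_exists_le _ _ _ _).trans ?_
    have q1 : ∀ x ∈ Af, PB E b (fun ω => τ s x (bot x) ∈ F ∧
        ¬ StepOK Φ F u (c ω) (τ s x (bot x))) ≤ 64 * C0 / ((T x + 1 : ℤ) : ℝ) ^ 2 := by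
      intro x hx
      have h1 := mem_Ico.1 (mem_filter.1 hx).1
      have h2 := hTr x hx
      set t : ℤ := (2 * T x - 1) / 4 with ht
      have h3 : 1 ≤ t := by omega
      have h4 : 4 * t + 1 ≤ 2 * T x := by omega
      have h5 : T x + 1 ≤ 8 * t := by omega
      refine (hflat hB h1.1 h1.2 (hT1 x) (hT2 x) h3 h4 hinv).trans ?_
      have h6 : (0 : ℝ) < (t : ℝ) := by exact_mod_cast h3
      have h7 : ((T x + 1 : ℤ) : ℝ) ≤ 8 * (t : ℝ) := by exact_mod_cast h5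
      have h8 : (0 : ℝ) < ((T x + 1 : ℤ) : ℝ) := by
        have : (0 : ℤ) < T x + 1 := by omega
        exact_mod_cast this
      rw [div_le_div_iff₀ (by positivity) (by positivity)]
      have h9 : ((T x + 1 : ℤ) : ℝ) ^ 2 ≤ (8 * (t : ℝ)) ^ 2 := pow_le_pow_left₀ h8.le h7 2
      nlinarith
    refine (sum_le_sum q1).trans ?_
    have q2 := sum_t Af J r (by omega) (R : ℝ) (by
        have : (0 : ℤ) < R := by omega
        exact_mod_cast this) (fun x => ((T x + 1 : ℤ) : ℝ)) (64 * C0) (by positivity) (by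
        intro x hx j hj
        have h3 := (mem_filter.1 hx).2 j hj
        rw [le_abs]
        omega) (by
        intro x hx
        rcases hT3 x with h2 | ⟨j, hj, h2⟩
        · left
          exact_mod_cast h2
        · right
          exact ⟨j, hj, by exact_mod_cast h2⟩)
    refine q2.trans ?_
    have hcard : (Af.card : ℝ) ≤ ((xe - xs).toNat : ℝ) := by
      have h1 : Af.card ≤ (Ico xs xe).card := card_filter_le _ _
      rw [Int.card_Ico] at h1
      exact_mod_cast h1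
    have h2 : 64 * C0 * (Af.card : ℝ) / (R : ℝ) ^ 2 ≤
        256 * C0 * ((xe - xs).toNat : ℝ) / (R : ℝ) ^ 2 := by
      apply div_le_div_of_nonneg_right _ (by positivity)
      have : (0 : ℝ) ≤ (Af.card : ℝ) := by positivity
      nlinarith
    have h3 : 4 * (64 * C0) * (J.card : ℝ) / r = 256 * C0 * (J.card : ℝ) / r := by ring
    rw [h3]
    linarith
  -- the corners
  have p2 : PB E b (fun ω => ∃ p ∈ I, ∃ e ∈ FcB s F bot xs xe p.1 r p.2,
      ¬ StepOK Φ F u (c ω) e) ≤ 4 * (J.card : ℝ) * (1 - δ) ^ k := by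
    refine (PB_exists_le _ _ _ _).trans ?_
    have q1 : ∀ p ∈ I, PB E b (fun ω => ∃ e ∈ FcB s F bot xs xe p.1 r p.2,
        ¬ StepOK Φ F u (c ω) e) ≤ 2 * (1 - δ) ^ k := by
      rintro ⟨j, d⟩ hp
      have hj : j ∈ J := (mem_product.1 hp).1
      simp only
      rcases (FcB s F bot xs xe j r d).eq_empty_or_nonempty with he | he
      · rw [he]
        refine (PB_exists_le _ _ _ _).trans ?_
        rw [sum_empty]
        have : 0 ≤ 1 - δ := by linarith
        positivity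
      · obtain ⟨k1, k2, k3, k4, k5⟩ := corner_bank hB hj (d := d) (r1 := (r : ℤ))
          (M := 4 ^ k * ((r : ℤ) + 1)) (r := 2 * (4 ^ k * ((r : ℤ) + 1)) + 3) (by omega)
          (by nlinarith) le_rfl (by nlinarith) (by nlinarith) he
        exact hcor b E F _ _ _ c u Φ _ ((r : ℤ) + 1) k (by omega) k2 k3 k4 k1 (hinv _ k5)
    refine (sum_le_sum q1).trans ?_
    rw [sum_const, nsmul_eq_mul, hI, card_product]
    simp only [card_univ, Fintype.card_bool]
    push_cast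
    nlinarith
  refine s1.trans ((PB_or_le _ _ _ _).trans ?_)
  unfold eOR
  linarith

/-- **ONE-ROW**: forcing the tiles `F`, which belong to the first rows of finitely many banks, changes a
functional of the link patterns with small probability. -/
theorem one_rows : ∃ C δ : ℝ, 0 < C ∧ 0 < δ ∧ δ < 1 ∧ ∀ {γ : Type*} [DecidableEq γ] {β ι : Type*}
    {Λ D : Set (ℤ × ℤ)} {E F : Finset (ℤ × ℤ)} {b : ℤ × ℤ → γ}
    {c : Finset (ℤ × ℤ) → Finset (ℤ × ℤ)} {u : ℤ × ℤ → ℤ × ℤ} {Φ : Finset (ℤ × ℤ) → β}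
    (I : Finset ι) (s : ι → Bool) (xs xe R : ι → ℤ) (bot pc : ι → ℤ → ℤ) (Hl : ι → ℤ → ℤ → Prop)
    (J : ι → Finset ℤ) (r k : ι → ℕ),
    (∀ i ∈ I, Bank (s i) Λ D E b c F u (xs i) (xe i) (R i) (bot i) (pc i) (Hl i) (J i)) →
    (∀ i ∈ I, 4 ≤ r i ∧ 16 * 4 ^ (k i) * (r i : ℤ) ≤ R i) →
    (∀ f ∈ F, ∃ i ∈ I, ∃ x, (xs i ≤ x ∧ x < xe i) ∧ τ (s i) x (bot i x) = f) →
    (∀ Z : Finset (ℤ × ℤ), (∀ e ∈ Z, e ∈ Λ ∧ e ∉ D) → PatInv Z Φ) →
    PB E b (fun ω => Φ (Force F u (c ω)) ≠ Φ (c ω)) ≤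
      ∑ i ∈ I, eOR C δ (J i) (xs i) (xe i) (R i) (r i) (k i) := by
  obtain ⟨C, δ, hC, h0, h1, h⟩ := one_bank
  refine ⟨C, δ, hC, h0, h1, ?_⟩
  intro γ _ β ι Λ D E F b c u Φ I s xs xe R bot pc Hl J r k hB hr hF hinv
  refine le_trans (PB_mono' (B := fun ω => ∃ i ∈ I, ∃ x, (xs i ≤ x ∧ x < xe i) ∧
    τ (s i) x (bot i x) ∈ F ∧ ¬ StepOK Φ F u (c ω) (τ (s i) x (bot i x))) ?_) ?_
  · intro ω h2
    by_contra h3
    push Not at h3
    apply h2
    apply force_all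
    intro e he
    obtain ⟨i, hi, x, hx, rfl⟩ := hF e he
    exact h3 i hi x hx he
  · exact (PB_exists_le _ _ _ _).trans
      (sum_le_sum fun i hi => h (r i) (k i) (hB i hi) (hr i hi).1 (hr i hi).2 hinv)

end Pool.Agent.H92.W
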