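import Mathlib
import Pool.Agent.H92.W.OneRow
import Pool.Agent.H82.W.EB

set_option autoImplicit false
open Finset

/-! # ONE-ROW: the error tends to zero; expectations -/

namespace Pool.Agent.H92.W

open Pool.Agent.H35.W (Force StepOK)
open Pool.Agent.H58.W (PB PB_nonneg)
open Pool.Agent.H82.W (EB EB_sub norm_EB_le)

/-- the error of a bank of macroscopic size tends to zero -/
theorem eOR_small {C δ : ℝ} (hC : 0 < C) (h0 : 0 < δ) (h1 : δ < 1) (m : ℕ) (A : ℝ)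
    {ε : ℝ} (hε : 0 < ε) : ∃ (r k : ℕ) (R0 : ℤ), 4 ≤ r ∧ ∀ R : ℤ, R0 ≤ R →
      16 * 4 ^ k * (r : ℤ) ≤ R ∧ ∀ (J : Finset ℤ) (xs xe : ℤ), J.card ≤ m →
        ((xe - xs).toNat : ℝ) ≤ A * R → eOR C δ J xs xe R r k ≤ ε := by
  obtain ⟨k, hk⟩ := exists_pow_lt_of_lt_one (show (0 : ℝ) < ε / (3 * (4 * (m + 1))) by positivity)
    (show 1 - δ < 1 by linarith)
  obtain ⟨r0, hr0⟩ := exists_nat_gt (3 * C * (m + 1) / ε)
  obtain ⟨R1, hR1⟩ := exists_nat_gt (3 * C * A / ε)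
  set r := r0 + 4 with hr
  refine ⟨r, k, max (16 * 4 ^ k * (r : ℤ)) (R1 + 1), by omega, fun R hR => ?_⟩
  have hRa : 16 * 4 ^ k * (r : ℤ) ≤ R := (le_max_left _ _).trans hR
  have hRb : (R1 : ℤ) + 1 ≤ R := (le_max_right _ _).trans hR
  refine ⟨hRa, fun J xs xe hJ hx => ?_⟩
  have hRpos : (0 : ℝ) < (R : ℝ) := by
    have : (0 : ℤ) < R := by omega
    exact_mod_cast this
  have hR1' : (R1 : ℝ) ≤ (R : ℝ) := by
    have : (R1 : ℤ) ≤ R := by omega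
    exact_mod_cast this
  have hJ' : (J.card : ℝ) ≤ (m : ℝ) := by exact_mod_cast hJ
  have hJ0 : (0 : ℝ) ≤ (J.card : ℝ) := by positivity
  have hrpos : (0 : ℝ) < (r : ℝ) := by
    have : 0 < r := by omega
    exact_mod_cast this
  have hr0' : (r0 : ℝ) ≤ (r : ℝ) := by
    have : r0 ≤ r := by omega
    exact_mod_cast this
  have t1 : C * (J.card : ℝ) / r ≤ ε / 3 := by
    rw [div_le_iff₀ hrpos]
    have h2 : 3 * C * (m + 1) / ε < r := lt_of_lt_of_le hr0 hr0'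
    rw [div_lt_iff₀ hε] at h2
    nlinarith
  have t2 : C * ((xe - xs).toNat : ℝ) / (R : ℝ) ^ 2 ≤ ε / 3 := by
    rw [div_le_iff₀ (by positivity)]
    have h2 : 3 * C * A / ε < R := lt_of_lt_of_le hR1 hR1'
    rw [div_lt_iff₀ hε] at h2
    have h3 : C * ((xe - xs).toNat : ℝ) ≤ C * (A * R) := mul_le_mul_of_nonneg_left hx hC.le
    have h4 : C * (A * R) ≤ ε / 3 * (R : ℝ) ^ 2 := by
      have : 3 * C * A * R ≤ (R * ε) * R := mul_le_mul_of_nonneg_right h2.le hRpos.le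
      nlinarith
    exact h3.trans h4
  have t3 : 4 * (J.card : ℝ) * (1 - δ) ^ k ≤ ε / 3 := by
    have h2 : (0 : ℝ) ≤ (1 - δ) ^ k := pow_nonneg (by linarith) k
    have h3 : (1 - δ) ^ k * (3 * (4 * ((m : ℝ) + 1))) ≤ ε := by
      rw [lt_div_iff₀ (by positivity)] at hk
      exact hk.le
    nlinarith
  unfold eOR
  linarith

/-- **ONE-ROW, qualitative form**: at most `N` banks, each with at most `m` abscissas of change and at most
`A R` columns; the forced configuration has the same pattern up to an event of probability `ε`. -/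
theorem one_rows_eps (N m : ℕ) (A : ℝ) {ε : ℝ} (hε : 0 < ε) : ∃ R0 : ℤ,
    ∀ {γ : Type*} [DecidableEq γ] {β ι : Type*}
    {Λ D : Set (ℤ × ℤ)} {E F : Finset (ℤ × ℤ)} {b : ℤ × ℤ → γ}
    {c : Finset (ℤ × ℤ) → Finset (ℤ × ℤ)} {u : ℤ × ℤ → ℤ × ℤ} {Φ : Finset (ℤ × ℤ) → β}
    (I : Finset ι) (s : ι → Bool) (xs xe R : ι → ℤ) (bot pc : ι → ℤ → ℤ) (Hl : ι → ℤ → ℤ → Prop)
    (J : ι → Finset ℤ), I.card ≤ N →
    (∀ i ∈ I, Bank (s i) Λ D E b c F u (xs i) (xe i) (R i) (bot i) (pc i) (Hl i) (J i)) →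
    (∀ i ∈ I, R0 ≤ R i ∧ (J i).card ≤ m ∧ ((xe i - xs i).toNat : ℝ) ≤ A * (R i)) →
    (∀ f ∈ F, ∃ i ∈ I, ∃ x, (xs i ≤ x ∧ x < xe i) ∧ τ (s i) x (bot i x) = f) →
    (∀ Z : Finset (ℤ × ℤ), (∀ e ∈ Z, e ∈ Λ ∧ e ∉ D) → PatInv Z Φ) →
    PB E b (fun ω => Φ (Force F u (c ω)) ≠ Φ (c ω)) ≤ ε := by
  obtain ⟨C, δ, hC, h0, h1, h⟩ := one_rows
  obtain ⟨r, k, R0, hr, hR0⟩ := eOR_small hC h0 h1 m A (ε := ε / (N + 1)) (by positivity)
  refine ⟨R0, ?_⟩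
  intro γ _ β ι Λ D E F b c u Φ I s xs xe R bot pc Hl J hI hB hR hF hinv
  refine (h I s xs xe R bot pc Hl J (fun _ => r) (fun _ => k) hB
    (fun i hi => ⟨hr, (hR0 _ (hR i hi).1).1⟩) hF hinv).trans ?_
  refine (sum_le_sum fun i hi => (hR0 _ (hR i hi).1).2 (J i) (xs i) (xe i) (hR i hi).2.1
    (hR i hi).2.2).trans ?_
  rw [sum_const, nsmul_eq_mul]
  have h2 : (I.card : ℝ) ≤ N := by exact_mod_cast hI
  have h3 : (0 : ℝ) < ε / (N + 1) := by positivity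
  calc (I.card : ℝ) * (ε / (N + 1)) ≤ (N + 1) * (ε / (N + 1)) :=
        mul_le_mul_of_nonneg_right (by linarith) h3.le
    _ = ε := by field_simp

/-- from the probability to the expectations -/
theorem EB_force_le {γ : Type*} [DecidableEq γ] {β : Type*} {E F : Finset (ℤ × ℤ)} {b : ℤ × ℤ → γ}
    {c : Finset (ℤ × ℤ) → Finset (ℤ × ℤ)} {u : ℤ × ℤ → ℤ × ℤ} {Φ : Finset (ℤ × ℤ) → β}
    {V : β → ℂ} {M : ℝ} (hM : 0 ≤ M) (hV : ∀ x, ‖V x‖ ≤ M) {ε : ℝ}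
    (h : PB E b (fun ω => Φ (Force F u (c ω)) ≠ Φ (c ω)) ≤ ε) :
    ‖EB E b (fun ω => V (Φ (Force F u (c ω)))) - EB E b (fun ω => V (Φ (c ω)))‖ ≤ 2 * M * ε := by
  classical
  rw [← EB_sub]
  refine (norm_EB_le (M := 2 * M) (A := fun ω => Φ (Force F u (c ω)) ≠ Φ (c ω)) ?_ ?_).trans ?_
  · intro ω _ _
    calc ‖V (Φ (Force F u (c ω))) - V (Φ (c ω))‖ ≤ ‖V (Φ (Force F u (c ω)))‖ + ‖V (Φ (c ω))‖ :=
          norm_sub_le _ _
      _ ≤ M + M := add_le_add (hV _) (hV _)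
      _ = 2 * M := by ring
  · intro ω _ hω
    have h2 : Φ (Force F u (c ω)) = Φ (c ω) := not_not.mp hω
    show V (Φ (Force F u (c ω))) - V (Φ (c ω)) = 0
    rw [h2, sub_self]
  · exact mul_le_mul_of_nonneg_left h (by positivity)

end Pool.Agent.H92.W
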