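import Mathlib
import Pool.Agent.H78.W.VGc

set_option autoImplicit false
open Finset

/-! # StChd, V1: every chord side of a generic polyomino has coarse data `Cc` -/

namespace Pool.Agent.H92.W

open Pool.Agent.Q1.M4 (Cell PType Good)
open Pool.Agent.H13.W (chG)
open Pool.Agent.H5.C3 (Gen)
open Pool.Agent.H78.W (Cc Bd exists_Bd exists_right)

/-- the first `x` of `(b, W]` with the property, or `W` -/
lemma exists_first {p : ℤ → Prop} {b W : ℤ} (hb : ¬ p b) (hW : b < W) :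
    ∃ t, b < t ∧ t ≤ W ∧ (∀ x, b ≤ x → x < t → ¬ p x) ∧ (t < W → p t) := by
  classical
  have hex : ∃ k : ℕ, p (b + k) ∨ W ≤ b + k := ⟨(W - b).toNat, Or.inr (by omega)⟩
  have h1 := Nat.find_spec hex
  have h2 : ∀ m, m < Nat.find hex → ¬ p (b + m) ∧ b + m < W := by
    intro m hm
    have := Nat.find_min hex hm
    push Not at this
    exact this
  generalize Nat.find hex = k at h1 h2
  have hk0 : 0 < k := by
    rcases Nat.eq_zero_or_pos k with h0 | h0
    · subst h0
      rcases h1 with h3 | h3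
      · exact absurd (by simpa using h3) hb
      · exfalso
        have : W ≤ b := by simpa using h3
        omega
    · exact h0
  have hkW : b + k ≤ W := by
    have := (h2 (k - 1) (by omega)).2
    omega
  refine ⟨b + k, by omega, hkW, fun x h3 h4 => ?_, fun h3 => ?_⟩
  · have h5 := (h2 (x - b).toNat (by omega)).1
    have h6 : b + ((x - b).toNat : ℤ) = x := by omega
    rwa [h6] at h5
  · rcases h1 with h4 | h4
    · exact h4
    · omega

/-- no diagonal contact at the vertex `(W, Y)` -/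
lemma no_diag {Q : Finset Cell} (hg : Good Q) {W Y n w : ℤ} (hnw : (n = Y ∧ w = Y - 1) ∨ (n = Y - 1 ∧ w = Y))
    (h1 : ((W - 1, w) : Cell) ∈ Q) (h2 : ((W, w) : Cell) ∉ Q) (h3 : ((W - 1, n) : Cell) ∉ Q) :
    ((W, n) : Cell) ∉ Q := by
  intro h4
  rcases hnw with ⟨rfl, rfl⟩ | ⟨rfl, rfl⟩
  · -- `(W - 1, Y - 1)` and `(W, Y)`
    have := hg.diag1 (W - 1, n - 1) h1 (by simpa using h4)
    rcases this with h5 | h5
    · exact h2 (by simpa using h5)
    · exact h3 (by simpa using h5)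
  · -- `(W - 1, Y)` and `(W, Y - 1)`
    have := hg.diag2 (W - 1, w - 1) (by simpa using h4) (by simpa using h1)
    rcases this with h5 | h5
    · exact h3 h5
    · exact h2 (by simpa using h5)

/-- **The coarse data of a chord side.** -/
theorem exists_Cc {P0 : PType} (hG : Gen P0.Q) {a Y : ℤ} (h : ((a, Y) : Cell) ∈ chG P0.Q) :
    ∃ (sg : Bool) (be bt bw : ℤ) (P : Bool), Cc P0.Q sg a be bt bw Y P := by
  classical
  have h0 := h
  unfold chG at h
  rw [mem_filter] at h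
  obtain ⟨-, -, be, hab, hcd, hne⟩ := h
  simp only at hab hcd
  obtain ⟨sg, hsg⟩ : ∃ sg : Bool, sg = true ↔ ((be, Y) : Cell) ∉ P0.Q := by
    by_cases hc : ((be, Y) : Cell) ∉ P0.Q
    · exact ⟨true, by simp [hc]⟩
    · exact ⟨false, by simpa using hc⟩
  set w : ℤ := if sg then Y - 1 else Y with hw
  set n : ℤ := if sg then Y else Y - 1 with hn
  have hnw : (n = Y ∧ w = Y - 1) ∨ (n = Y - 1 ∧ w = Y) := by
    cases sg
    · right; simp [hw, hn]
    · left; simp [hw, hn]
  have hbw : ((be, w) : Cell) ∈ P0.Q ∧ ((be, n) : Cell) ∉ P0.Q := by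
    rcases hnw with ⟨h1, h2⟩ | ⟨h1, h2⟩
    · rw [h1, h2]
      have h3 : ((be, Y) : Cell) ∉ P0.Q := by
        cases sg
        · exfalso
          simp [hn] at h1
        · exact hsg.1 rfl
      refine ⟨?_, h3⟩
      by_contra h4
      exact hne ⟨fun h5 => absurd h5 h3, fun h5 => absurd h5 h4⟩
    · rw [h1, h2]
      have h3 : ((be, Y) : Cell) ∈ P0.Q := by
        cases sg
        · by_contra hc
          exact absurd (hsg.2 hc) (by simp)
        · exfalso
          have h5 : (Y : ℤ) = Y - 1 := h1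
          omega
      refine ⟨h3, ?_⟩
      intro h4
      exact hne ⟨fun _ => h4, fun _ => h3⟩
  obtain ⟨B, hB⟩ := exists_Bd P0.Q
  obtain ⟨bw, hbw1, hbw2, hbw3⟩ := exists_right (F := (P0.Q : Set Cell)) (B := B)
    (fun c hc => (hB c hc).2.1) (x := be) (y := w) hbw.1
  obtain ⟨bt, ht1, ht2, ht3, ht4⟩ := exists_first (p := fun x => ((x, n) : Cell) ∈ P0.Q) hbw.2 hbw1
  -- both rows
  have hboth : ∀ x, ((x, w) : Cell) ∈ P0.Q → ((x, n) : Cell) ∈ P0.Q →
      ((x, Y) : Cell) ∈ P0.Q ∧ ((x, Y - 1) : Cell) ∈ P0.Q := by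
    intro x h1 h2
    rcases hnw with ⟨h3, h4⟩ | ⟨h3, h4⟩
    · rw [h4] at h1; rw [h3] at h2; exact ⟨h2, h1⟩
    · rw [h4] at h1; rw [h3] at h2; exact ⟨h1, h2⟩
  have hiff : ∀ x, (((x, Y) : Cell) ∈ P0.Q ↔ ((x, Y - 1) : Cell) ∈ P0.Q) →
      (((x, w) : Cell) ∈ P0.Q ↔ ((x, n) : Cell) ∈ P0.Q) := by
    intro x h1
    rcases hnw with ⟨h3, h4⟩ | ⟨h3, h4⟩
    · rw [h3, h4]; exact h1.symm
    · rw [h3, h4]; exact h1
  have hch : ∀ a', a ≤ a' → a' < be → ((a', Y) : Cell) ∈ chG P0.Q := by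
    intro a' h1 h2
    unfold chG
    rw [mem_filter]
    exact ⟨(hcd a' h1 h2).1, (hcd a' h1 h2).2, be, h2, fun x h3 h4 => hcd x (by simp at h3; omega) h4, hne⟩
  rcases lt_or_eq_of_le ht2 with hlt | heq
  · -- case P
    obtain ⟨b2, k1, k2, k3, k4⟩ := exists_first (p := fun x => ¬ ((x, n) : Cell) ∈ P0.Q)
      (b := bt) (W := bw) (by simpa using ht4 hlt) hlt
    have k3' : ∀ x, bt ≤ x → x < b2 → ((x, n) : Cell) ∈ P0.Q := fun x h1 h2 => by
      have := k3 x h1 h2
      simpa using this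
    have hbt1 : ((bt - 1, n) : Cell) ∉ P0.Q := ht3 (bt - 1) (by omega) (by omega)
    have hbt2 : ((bt - 1, w) : Cell) ∈ P0.Q := hbw2 (bt - 1) (by omega) (by omega)
    have hgen := hG bt b2 Y k1 (fun x h1 h2 => hboth x (hbw2 x (by omega) (by omega)) (k3' x h1 h2))
    have hr : ((b2, w) : Cell) ∈ P0.Q ↔ ((b2, n) : Cell) ∈ P0.Q := by
      rcases hgen with h1 | h1
      · exact absurd ((hiff _ h1).1 hbt2) hbt1
      · exact hiff _ h1
    have hb2 : b2 = bw := by
      rcases lt_or_eq_of_le k2 with h1 | h1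
      · exact absurd (hr.1 (hbw2 b2 (by omega) h1)) (k4 h1)
      · exact h1
    subst hb2
    refine ⟨sg, be, bt, b2, true, hab, ht1, ht2, by simp, fun _ => hlt, hcd, hch, hbw2, hbw3, ht3,
      fun _ => k3', fun h1 => hbw3 (hr.2 h1)⟩
  · -- case NO-P
    subst heq
    refine ⟨sg, be, bt, bt, false, hab, ht1, le_rfl, fun _ => rfl, by simp, hcd, hch, hbw2, hbw3,
      ht3, by simp, ?_⟩
    exact no_diag P0.good hnw (hbw2 (bt - 1) (by omega) (by omega)) hbw3
      (ht3 (bt - 1) (by omega) (by omega))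

end Pool.Agent.H92.W
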